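import Mathlib
import Pool.Agent.X217.YM.Press
import Pool.Agent.X217.YM.Bound
import Pool.Agent.X217.YM.Energy
import Pool.Agent.X217.YM.Joint
import Pool.Agent.X217.YM.Entropy
import Pool.Agent.X217.YM.Final

/-!
# Lattice Yang-Mills theory: the free energy at weak coupling

Wilson's lattice gauge theory in dimension `d ≥ 3` with gauge group an arbitrary closed subgroup `G`
of `U(N)`, of dimension `n`, at the inverse coupling `β`. Let `a = (d - 1) n / 2` and
`F(β) = (d - 1) c₁ - (n (d - 2) / 2) K_d - a log β`, where `c₁` is the limit of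
`log z(β) + (n / 2) log β`, `z(β)` being the partition function of a single plaquette, and
`K_d = log (4 d) - ∑_{k ≥ 1} p_k / k` with the return probabilities `p_k` of the lazy random walk on
`ℤ^d`. The free energy per site converges in the thermodynamic limit, for periodic and for free
boundary conditions, with explicit error terms; the limit is `F(β) + O(β ^ (-δ))`, and this holds for
the periodic lattice `(ℤ/l)^d` already if `l` is even and `l ≥ β`, that is uniformly in the volume,
where the energy per site is `a / β + O(β ^ (-1 - δ))`. If `G` is infinite and `l` is even and at least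
`β₀ / ε`, then the Haar measure of the set of all gauge fields on `(ℤ/l)^d` with Wilson action at most
`ε` per site is `exp (l ^ d (F(a / ε) + a + O(ε ^ δ)))`.
-/

open MeasureTheory Matrix Filter
open scoped Matrix.Norms.Frobenius Topology ContDiff

namespace Pool.Agent.Results.MP_7f377f_mp.FreeEnergy

open Pool.Agent.X217

noncomputable section

/-- Complex `N × N` matrices. -/
abbrev Mt (N : ℕ) := Matrix (Fin N) (Fin N) ℂ

/-- The unitary group `U(N)`. -/
abbrev UU (N : ℕ) := Matrix.unitaryGroup (Fin N) ℂ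

/-- The matrix of an element of a subgroup of `U(N)`. -/
def mt {N : ℕ} {G : Subgroup (UU N)} (g : G) : Mt N := ((g : UU N) : Mt N)

/-- An orthonormal basis `X` of the Lie algebra of `G`, that is of the real space of all matrices `Y`
with `exp (t Y) ∈ G` for all real `t`, with the scalar product `Re tr (Y* Z)`; `ex a t` is the
element `exp (t X_a)` of `G`. -/
structure LieBasis {N : ℕ} (G : Subgroup (UU N)) (n : ℕ) where
  X : Fin n → Mt N
  ex : Fin n → ℝ → G
  ex_eq : ∀ a t, mt (ex a t) = NormedSpace.exp (t • X a)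
  orth : ∀ a b, (trace ((X a)ᴴ * X b)).re = if a = b then 1 else 0
  full : ∀ Y : Mt N, (∀ t : ℝ, ∃ g : G, mt g = NormedSpace.exp (t • Y)) →
    Y ∈ Submodule.span ℝ (Set.range X)

/-- Links of the periodic lattice `(ℤ/l)^d`: base point and direction. -/
abbrev Link (d l : ℕ) := (Fin d → ZMod l) × Fin d

variable {N n d : ℕ} {G : Subgroup (UU N)}

/-- The product of the link variables around the plaquette at `x` in the directions `i`, `j`. -/
def plaq {l : ℕ} (U : Link d l → G) (x : Fin d → ZMod l) (i j : Fin d) : G :=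
  U (x, i) * U (x + Pi.single i 1, j) * (U (x + Pi.single j 1, i))⁻¹ * (U (x, j))⁻¹

/-- The Wilson action `∑_p Re tr (1 - U_p)`, the sum over the plaquettes. -/
def action {l : ℕ} [NeZero l] (U : Link d l → G) : ℝ :=
  ∑ x : Fin d → ZMod l, ∑ i : Fin d, ∑ j : Fin d,
    if i < j then (trace (1 - mt (plaq U x i j))).re else 0

/-- The pressure of the periodic lattice `(ℤ/l)^d`: the logarithm of the partition function divided
by the number of sites. -/
def pressure [MeasurableSpace G] (l d : ℕ) [NeZero l] (μ : Measure G) (β : ℝ) : ℝ :=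
  Real.log (∫ U : Link d l → G, Real.exp (-(β * action U)) ∂(Measure.pi fun _ => μ)) / (l : ℝ) ^ d

/-- The Wilson action of the box `{0, …, l - 1}^d` with free boundary conditions: the plaquettes of
the periodic lattice which do not wrap around. -/
def boxAction {l : ℕ} [NeZero l] (U : Link d l → G) : ℝ :=
  ∑ x : Fin d → ZMod l, ∑ i : Fin d, ∑ j : Fin d,
    if i < j ∧ (x i).val + 1 < l ∧ (x j).val + 1 < l then (trace (1 - mt (plaq U x i j))).re else 0

/-- The pressure of the box with free boundary conditions. -/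
def boxPressure [MeasurableSpace G] (l d : ℕ) [NeZero l] (μ : Measure G) (β : ℝ) : ℝ :=
  Real.log (∫ U : Link d l → G, Real.exp (-(β * boxAction U)) ∂(Measure.pi fun _ => μ)) /
    (l : ℝ) ^ d

/-- The energy density of the periodic lattice: the expectation of the Wilson action divided by the
number of sites. -/
def energy [MeasurableSpace G] (l d : ℕ) [NeZero l] (μ : Measure G) (β : ℝ) : ℝ :=
  (∫ U : Link d l → G, action U * Real.exp (-(β * action U)) ∂(Measure.pi fun _ => μ)) /
    (∫ U : Link d l → G, Real.exp (-(β * action U)) ∂(Measure.pi fun _ => μ)) / (l : ℝ) ^ d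

/-- The partition function of a single plaquette, `∫ exp (-β Re tr (1 - g)) dg`. -/
def plaquettePartition [MeasurableSpace G] (μ : Measure G) (β : ℝ) : ℝ :=
  ∫ g : G, Real.exp (-(β * (trace (1 - mt g)).re)) ∂μ

/-- The transition probabilities of the lazy random walk on `ℤ^d`, which stays with probability
`1/2`: `walk d k z` is the probability that it is at `z` at time `k` if it starts at `0`. -/
def walk (d : ℕ) : ℕ → (Fin d → ℤ) → ℝ
  | 0, z => if z = 0 then 1 else 0
  | k + 1, z => 1 / 2 * walk d k z + 1 / (4 * d : ℝ) *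
      ∑ i, (walk d k (z + Pi.single i 1) + walk d k (z - Pi.single i 1))

/-- `K_d = log (4 d) - ∑_{k ≥ 1} p_k / k`, `p_k` being the probability that the lazy random walk on
`ℤ^d` is at its starting point at time `k`. -/
def logDet (d : ℕ) : ℝ := Real.log (4 * d) - ∑' k : ℕ, walk d (k + 1) 0 / (k + 1)

/-- The leading term `F(β) = (d - 1) c₁ - (n (d - 2) / 2) K_d - ((d - 1) n / 2) log β`. -/
def leading (d n : ℕ) (c₁ β : ℝ) : ℝ :=
  (d - 1) * c₁ - n * (d - 2) / 2 * logDet d - (d - 1) * n / 2 * Real.log β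

/-- The entropy: the logarithm, divided by the number of sites, of the product Haar measure of the
set of all configurations with Wilson action at most `ε` times the number of sites. -/
def entropy [MeasurableSpace G] (l d : ℕ) [NeZero l] (μ : Measure G) (ε : ℝ) : ℝ :=
  Real.log ((Measure.pi fun _ : Link d l => μ).real
    {U : Link d l → G | action U ≤ ε * (l : ℝ) ^ d}) / (l : ℝ) ^ d

/-- the energy of a plaquette as a function of the link variables -/
def pl (a b c e : G) : ℝ := (trace (1 - mt (a * b * c⁻¹ * e⁻¹))).re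

lemma pl_cont : Continuous fun p : G × G × G × G => pl p.1 p.2.1 p.2.2.1 p.2.2.2 := by
  have hm : Continuous (mt : G → Matrix (Fin N) (Fin N) ℂ) :=
    continuous_subtype_val.comp continuous_subtype_val
  unfold pl
  refine Complex.continuous_re.comp (Continuous.matrix_trace (continuous_const.sub (hm.comp ?_)))
  fun_prop

lemma tr_bound (g : G) : |(trace (mt g)).re| ≤ N := by
  have h1 : ‖trace (mt g)‖ ≤ ∑ i : Fin N, ‖mt g i i‖ := norm_sum_le _ _
  have h2 : ∀ i : Fin N, ‖mt g i i‖ ≤ 1 := fun i => entry_norm_bound_of_unitary (g : UU N).2 i i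
  have h3 : ∑ i : Fin N, ‖mt g i i‖ ≤ N := by
    calc _ ≤ ∑ _i : Fin N, (1 : ℝ) := Finset.sum_le_sum fun i _ => h2 i
      _ = N := by simp
  exact (Complex.abs_re_le_norm _).trans (h1.trans h3)

lemma tr_eq (g : G) : (trace (1 - mt g)).re = N - (trace (mt g)).re := YM.tr_eq g

lemma pl_nonneg (a b c e : G) : 0 ≤ pl a b c e := by
  unfold pl
  rw [tr_eq]
  have := (abs_le.1 (tr_bound (a * b * c⁻¹ * e⁻¹))).2
  linarith

lemma pl_le (a b c e : G) : pl a b c e ≤ 2 * N := by
  unfold pl
  rw [tr_eq]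
  have := (abs_le.1 (tr_bound (a * b * c⁻¹ * e⁻¹))).1
  linarith

/-- the basis in the form used by the starting result on Wilson loops -/
def wb (B : LieBasis G n) :
    Pool.Agent.Results.MP_7f377f_mp.WilsonLoopsWeakCoupling.LieBasis G n where
  X := B.X
  ex := B.ex
  ex_eq := B.ex_eq
  orth := B.orth
  full := B.full

/-- the basis in the form used by the helper files -/
def fm (B : LieBasis G n) : Pool.Agent.H906R3.YM.Frame G n :=
  Pool.Agent.Results.MP_7f377f_mp.WilsonLoopsWeakCoupling.fm (wb B)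

lemma walk_eq' (d k : ℕ) (z : Fin d → ℤ) : walk d k z =
    Pool.Agent.Results.MP_7f377f_mp.WilsonLoopsWeakCoupling.walk d k z := by
  induction k generalizing z with
  | zero => rfl
  | succ k ih =>
    simp only [walk, Pool.Agent.Results.MP_7f377f_mp.WilsonLoopsWeakCoupling.walk, ih]

lemma action_meas {l : ℕ} [NeZero l] [CompactSpace G] [SecondCountableTopology G]
    [MeasurableSpace G] [BorelSpace G] (B : LieBasis G n) :
    Measurable (action : (Link d l → G) → ℝ) :=
  (Pool.Agent.Results.MP_7f377f_mp.WilsonLoopsWeakCoupling.action_cont (wb B)).measurable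

theorem result {N n d : ℕ} (hd : 3 ≤ d) (G : Subgroup (UU N)) (hG : IsClosed (G : Set (UU N)))
    [MeasurableSpace G] [BorelSpace G] (μ : Measure G) [IsProbabilityMeasure μ] [μ.IsHaarMeasure]
    (B : LieBasis G n) :
    ∃ (P : ℝ → ℝ) (c₁ C δ β₀ : ℝ), 0 < C ∧ 0 < δ ∧ 1 ≤ β₀ ∧
      (∀ β : ℝ, 0 ≤ β → ∀ (l : ℕ) [NeZero l],
        |pressure l d μ β - P β| ≤ 12 * N * d ^ 3 * β / Real.sqrt l ∧
        |boxPressure l d μ β - P β| ≤ 2 * N * d ^ 3 * β / l) ∧
      Tendsto (fun β => Real.log (plaquettePartition μ β) + n / 2 * Real.log β) atTop (𝓝 c₁) ∧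
      (∀ β : ℝ, β₀ ≤ β → |P β - leading d n c₁ β| ≤ C * β ^ (-δ) ∧
        ∀ (l : ℕ) [NeZero l], Even l → β ≤ l →
          |pressure l d μ β - leading d n c₁ β| ≤ C * β ^ (-δ) ∧
          |energy l d μ β - (d - 1) * n / 2 / β| ≤ C * β ^ (-1 - δ)) ∧
      (0 < n → ∀ ε : ℝ, 0 < ε → ε * β₀ ≤ 1 → ∀ (l : ℕ) [NeZero l], Even l → β₀ ≤ ε * l →
        |entropy l d μ ε - (leading d n c₁ ((d - 1) * n / 2 / ε) + (d - 1) * n / 2)| ≤
          C * ε ^ δ) := by
  have : CompactSpace G := by
    have h1 : IsCompact (G : Set (UU N)) := hG.isCompact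
    exact isCompact_iff_compactSpace.1 h1
  have h00 : SecondCountableTopology (UU N) := TopologicalSpace.Subtype.secondCountableTopology _
  have : SecondCountableTopology G := TopologicalSpace.Subtype.secondCountableTopology _
  have : μ.IsMulRightInvariant :=
    Pool.Agent.Results.MP_7f377f_mp.WilsonLoopsWeakCoupling.right_inv μ
  obtain ⟨P, hP⟩ := YM.thermo (d := d) μ (F := (pl : G → G → G → G → ℝ)) pl_nonneg pl_le pl_cont
  have hPt : ∀ (l : ℕ) [NeZero l] (β : ℝ), YM.Pt μ (pl : G → G → G → G → ℝ) d l β =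
      pressure l d μ β := fun l _ β => rfl
  have hPb : ∀ (l : ℕ) [NeZero l] (β : ℝ), YM.Pb μ (pl : G → G → G → G → ℝ) d l β =
      boxPressure l d μ β := fun l _ β => rfl
  have hlim : ∀ β : ℝ, 0 ≤ β → ∀ (l : ℕ) [NeZero l],
        |pressure l d μ β - P β| ≤ 12 * N * d ^ 3 * β / Real.sqrt l ∧
        |boxPressure l d μ β - P β| ≤ 2 * N * d ^ 3 * β / l := by
    intro β hβ l _
    obtain ⟨h1, h2⟩ := hP β hβ
    have h1 := h1 l
    have h2 := h2 l
    rw [hPt] at h2
    rw [hPb] at h1
    refine ⟨h2.trans (le_of_eq ?_), h1.trans (le_of_eq ?_)⟩ <;> ring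
  -- the sequence of the pressures
  let a : ℕ → ℝ → ℝ := fun l β => if h : l = 0 then 0 else letI : NeZero l := ⟨h⟩
    pressure l d μ β
  let e : ℕ → ℝ → ℝ := fun l β => if h : l = 0 then 0 else letI : NeZero l := ⟨h⟩
    energy l d μ β
  have ha : ∀ (l : ℕ) [NeZero l] (β : ℝ), a l β = pressure l d μ β := fun l _ β => by
    simp only [a, dif_neg (NeZero.ne l)]
  have he : ∀ (l : ℕ) [NeZero l] (β : ℝ), e l β = energy l d μ β := fun l _ β => by
    simp only [e, dif_neg (NeZero.ne l)]
  have hseq : YM.Seq a e P := by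
    have hbase : ∀ (l : ℕ) [NeZero l],
        (∀ β, HasDerivAt (a l) (-e l β) β) ∧ ∀ s t, a l s - (t - s) * e l s ≤ a l t := by
      intro l _
      have hm : Measurable (action : (Link d l → G) → ℝ) := action_meas B
      have hK : ∀ U : Link d l → G, |action U| ≤ 2 * N * (d ^ 2 * (l : ℝ) ^ d) := by
        intro U
        have h1 : 0 ≤ action U := YM.tact_nonneg (F := (pl : G → G → G → G → ℝ)) pl_nonneg U
        have h2 : action U ≤ 2 * N * (d ^ 2 * (l : ℝ) ^ d) :=
          YM.tact_le (F := (pl : G → G → G → G → ℝ)) pl_le (by positivity) U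
        rw [abs_of_nonneg h1]
        exact h2
      have hld : (0 : ℝ) < (l : ℝ) ^ d :=
        pow_pos (Nat.cast_pos.2 (Nat.pos_of_ne_zero (NeZero.ne l))) d
      have e1 : a l = fun β => pressure l d μ β := funext fun β => ha l β
      constructor
      · intro β
        rw [e1, he]
        have h1 := (YM.hasDeriv_logZ (Measure.pi fun _ : Link d l => μ) hm hK β).div_const
          ((l : ℝ) ^ d)
        refine h1.congr_deriv ?_
        rw [neg_div]
        rfl
      · intro s t
        rw [ha, ha, he]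
        have h1 := YM.support (Measure.pi fun _ : Link d l => μ) hm hK s t
        have h2 := div_le_div_of_nonneg_right h1 hld.le
        rw [sub_div, mul_div_assoc] at h2
        exact h2
    refine ⟨fun l hl β => ?_, fun l hl s t => ?_, fun β hβ => ?_⟩
    · have : NeZero l := ⟨by omega⟩
      exact (hbase l).1 β
    · have : NeZero l := ⟨by omega⟩
      exact (hbase l).2 s t
    · rw [tendsto_iff_norm_sub_tendsto_zero]
      have ht : Tendsto (fun l : ℕ => 12 * N * d ^ 3 * β / Real.sqrt l) atTop (𝓝 0) :=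
        (tendsto_const_nhds).div_atTop
          (Real.tendsto_sqrt_atTop.comp tendsto_natCast_atTop_atTop)
      refine squeeze_zero' (Eventually.of_forall fun l => norm_nonneg _) ?_ ht
      filter_upwards [eventually_ge_atTop 1] with l hl
      have : NeZero l := ⟨by omega⟩
      rw [ha, Real.norm_eq_abs]
      exact (hlim β hβ l).1
  obtain ⟨C, δ, β₀, hC, hδ, hβ₀, hen⟩ := YM.energy_asymp hd G hG μ (wb B)
  have hen' : ∀ β, β₀ ≤ β → ∀ l : ℕ, Even l → β ≤ l →
      |e l β - ((d - 1) * n / 2) / β| ≤ C * β ^ (-1 - δ) := by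
    intro β hβ l hl hβl
    have hl0 : l ≠ 0 := by
      rintro rfl
      simp only [Nat.cast_zero] at hβl
      linarith
    have : NeZero l := ⟨hl0⟩
    rw [he]
    exact hen β hβ l hl hβl
  have hβ0 : 0 < β₀ := by linarith
  obtain ⟨c, hc⟩ := YM.const_exists hseq hβ0 hδ hC hen'
  -- the value of the constant
  obtain ⟨ρ, hρ, hdens⟩ := YM.dens hG μ (fm B)
  obtain ⟨s, rfl⟩ : ∃ s, d = s + 1 := ⟨d - 1, by omega⟩
  have hs : 2 ≤ s := by omega
  set c₁ : ℝ := Real.log ρ + n / 2 * Real.log (2 * Real.pi) with hc₁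
  have hz := YM.z1_lap μ hG (fm B) hρ hdens
  rw [← hc₁] at hz
  have hto : Tendsto (fun β => P β + (((s + 1 : ℕ) : ℝ) - 1) * (n / 2) * Real.log β) atTop
      (𝓝 c) := by
    rw [tendsto_iff_norm_sub_tendsto_zero]
    have h1 : Tendsto (fun β : ℝ => C / δ * β ^ (-δ)) atTop (𝓝 0) := by
      simpa using (tendsto_rpow_neg_atTop hδ).const_mul (C / δ)
    refine squeeze_zero' (Eventually.of_forall fun l => norm_nonneg _) ?_ h1
    filter_upwards [eventually_ge_atTop β₀] with β hβ
    refine le_trans (le_of_eq ?_) (hc β hβ)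
    rw [Real.norm_eq_abs]
    congr 1
    ring
  have hval := YM.const_value μ hs hG (fm B) hρ hdens (M := 2 * N) (by positivity) pl_le
    (P := P) (c := c) (fun β hβ l _ => (hP β hβ).1 l) (fun β hβ l _ => (hP β hβ).2 l) hto
  rw [← hc₁] at hval
  have hlead : ∀ β : ℝ, leading (s + 1) n c₁ β = c - (((s + 1 : ℕ) : ℝ) - 1) * n / 2 *
      Real.log β := by
    intro β
    simp only [leading, logDet, walk_eq', hval]
    push_cast
    ring
  -- the joint limit
  set A : ℝ := (((s + 1 : ℕ) : ℝ) - 1) * n / 2 with hA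
  set δ₁ : ℝ := min δ 1 / 4 with hδ₁
  have hδ₁0 : 0 < δ₁ := by
    have := lt_min hδ one_pos
    positivity
  have hδ₁1 : δ₁ ≤ 1 := by
    have := min_le_right δ 1
    rw [hδ₁]
    linarith
  have hδ₁δ : δ₁ ≤ δ := by
    have h1 := min_le_left δ 1
    have h2 := lt_min hδ one_pos
    rw [hδ₁]
    linarith
  set C₁ : ℝ := C / δ + C / δ + 12 * N * ((s + 1 : ℕ) : ℝ) ^ 3 with hC₁
  have hC₁0 : 0 ≤ C₁ := by positivity
  have hjoint : ∀ β, β₀ ^ 4 ≤ β → ∀ l : ℕ, Even l → β ≤ l →
      |a l β - (c - A * Real.log β)| ≤ C₁ * β ^ (-δ₁) := by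
    intro β hβ l hl hβl
    exact YM.joint hseq hβ₀ hδ hC (C₁ := C / δ) (M := 12 * N * ((s + 1 : ℕ) : ℝ) ^ 3)
      (by positivity) (by positivity) hen' hc (fun β hβ l hl => by
        have : NeZero l := ⟨by omega⟩
        rw [ha]
        exact (hlim β hβ l).1) hβ hl hβl
  have hβ4 : β₀ ≤ β₀ ^ 4 := le_self_pow₀ hβ₀ (by norm_num)
  have hβ41 : 1 ≤ β₀ ^ 4 := one_le_pow₀ hβ₀
  -- the entropy
  have hent : ∃ C₂ β₂ : ℝ, 0 < C₂ ∧ 1 ≤ β₂ ∧ (0 < n → ∀ ε : ℝ, 0 < ε → ε * β₂ ≤ 1 →
      ∀ (l : ℕ) [NeZero l], Even l → β₂ ≤ ε * l →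
        |entropy l (s + 1) μ ε - (leading (s + 1) n c₁ (A / ε) + A)| ≤ C₂ * ε ^ (δ₁ / 2)) := by
    rcases Nat.eq_zero_or_pos n with hn | hn
    · exact ⟨1, 1, one_pos, le_rfl, fun h => absurd hn h.ne'⟩
    · have hA0 : 0 < A := by
        have h1 : (0 : ℝ) < n := by exact_mod_cast hn
        have h2 : (0 : ℝ) < s := by
          have : 0 < s := by omega
          exact_mod_cast this
        rw [hA]
        push_cast
        rw [add_sub_cancel_right]
        positivity
      obtain ⟨C₂, β₂, hC₂, hβ₂, hE⟩ := YM.entropy_abs (C := C₁) (β₀ := β₀ ^ 4) c hA0 hC₁0 hδ₁0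
        hδ₁1 hβ41
      refine ⟨C₂, β₂, hC₂, hβ₂, fun _ ε hε hε1 l _ hl hεl => ?_⟩
      have hl1 : (1 : ℝ) ≤ l := by
        exact_mod_cast Nat.one_le_iff_ne_zero.2 (NeZero.ne l)
      have hm : Measurable (action : (Link (s + 1) l → G) → ℝ) := action_meas B
      have h1 := hE (Measure.pi fun _ : Link (s + 1) l => μ) action hm
        (fun U => YM.tact_nonneg (F := (pl : G → G → G → G → ℝ)) pl_nonneg U)
        ((l : ℝ) ^ (s + 1)) l (le_self_pow₀ hl1 (by omega)) (fun β hβ hβl => by
          have h2 := hjoint β hβ l hl hβl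
          rw [ha] at h2
          exact h2) ε hε hε1 hεl
      have h2 : leading (s + 1) n c₁ (A / ε) + A =
          A * Real.log ε + c + A - A * Real.log A := by
        rw [hlead, Real.log_div hA0.ne' hε.ne']
        ring
      rw [h2]
      exact h1
  obtain ⟨C₂, β₂, hC₂, hβ₂, hE⟩ := hent
  have hpow : ∀ β : ℝ, 1 ≤ β → ∀ x y : ℝ, y ≤ x → β ^ (-x) ≤ β ^ (-y) := fun β hβ x y hxy =>
    Real.rpow_le_rpow_of_exponent_le hβ (by linarith)
  refine ⟨P, c₁, C₁ + C + C₂, δ₁ / 2, β₀ ^ 4 + β₂, by positivity, by positivity, by linarith,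
    hlim, hz, fun β hβ => ?_, fun hn ε hε hε1 l _ hl hεl => ?_⟩
  · have hβ1 : β₀ ^ 4 ≤ β := by linarith
    have hβ2 : β₀ ≤ β := hβ4.trans hβ1
    have hβ3 : 1 ≤ β := by linarith
    have hβpos : 0 < β := by linarith
    have hP0 : 0 ≤ β ^ (-(δ₁ / 2)) := Real.rpow_nonneg hβpos.le _
    have p1 : β ^ (-δ₁) ≤ β ^ (-(δ₁ / 2)) := hpow β hβ3 _ _ (by linarith)
    have p2 : β ^ (-δ) ≤ β ^ (-(δ₁ / 2)) := hpow β hβ3 _ _ (by linarith)
    rw [hlead]
    refine ⟨(hc β hβ2).trans ?_, fun l _ hl hβl => ⟨?_, ?_⟩⟩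
    · have h1 : C / δ ≤ C₁ + C + C₂ := by
        have h2 : 0 ≤ C / δ := by positivity
        have h3 : 0 ≤ 12 * (N : ℝ) * ((s + 1 : ℕ) : ℝ) ^ 3 := by positivity
        rw [hC₁]
        linarith
      exact mul_le_mul h1 p2 (Real.rpow_nonneg hβpos.le _) (by positivity)
    · have h1 := hjoint β hβ1 l hl hβl
      rw [ha] at h1
      exact h1.trans (mul_le_mul (by linarith) p1 (Real.rpow_nonneg hβpos.le _) (by positivity))
    · have h1 := hen β hβ2 l hl hβl
      refine h1.trans (mul_le_mul (by linarith) ?_ (Real.rpow_nonneg hβpos.le _) (by positivity))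
      exact Real.rpow_le_rpow_of_exponent_le hβ3 (by linarith)
  · have h1 := hE hn ε hε (by nlinarith) l hl (by linarith)
    refine h1.trans (mul_le_mul_of_nonneg_right (by linarith) (Real.rpow_nonneg hε.le _))

end

end Pool.Agent.Results.MP_7f377f_mp.FreeEnergy
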