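import Mathlib
import Pool.Agent.X168.PK.Ms
import Pool.Agent.X168.PK.Out

/-!
# Wilson lattice gauge theory at every temperature: static charges are classified by the N-ality

Space is the periodic cubic lattice `(ℤ/l)^D` with `D ≥ 2`, time is `ℤ/n`, the gauge group `G` is a
compact connected group with a faithful unitary representation `τ`, and the weight is
`exp (β ∑_p Re χ_τ(U_p))` with any `β > 0`. For sources in representations `ρ_1, …, ρ_r` at the sites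
`x_1, …, x_r` let `P_ρ(x)` be the expectation of the product of the Polyakov loops `χ_{ρ_i}(P_{x_i})`.
If `ρ_i` and `ρ'_i` have the same N-ality for all `i`, then for every `η > 0` there are `C` and `L`
with `P_ρ'(x) ^ (1 + η) ≤ C ^ n P_ρ(x)` for all `l ≥ L`, all `n ≥ 1` and all `x`. Hence the string
tension, at every temperature `1 / n` and at temperature zero, and the long range order of the
Polyakov loops depend on the N-ality only, and charges of trivial N-ality are screened.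
-/

open MeasureTheory Matrix

namespace Pool.Agent.Results.MP_7f377f_mp.PolyakovNality

set_option linter.unusedSectionVars false

noncomputable section

/-- The unitary group `U(N)`. -/
abbrev UU (N : ℕ) := Matrix.unitaryGroup (Fin N) ℂ

/-- Sites of the periodic lattice `(ℤ/l)^D`. -/
abbrev Site (D l : ℕ) := Fin D → ZMod l

/-- Links of the lattice: base point and direction. -/
abbrev Link (D l : ℕ) := (Fin D → ZMod l) × Fin D

/-- Unit vector of the lattice in direction `i`. -/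
def unitv {D l : ℕ} (i : Fin D) : Site D l := Pi.single i 1

/-- A continuous unitary representation of `G`. -/
structure Rep (G : Type) [Group G] [TopologicalSpace G] where
  dim : ℕ
  hom : G →* UU dim
  cont : Continuous hom

section

variable {G : Type} [Group G] {D l n : ℕ}

/-- The product of the link variables around the plaquette at `x` in the directions `i`, `j` of
space. -/
def plaq (U : Link D l → G) (x : Site D l) (i j : Fin D) : G :=
  U (x, i) * U (x + unitv i, j) * (U (x + unitv j, i))⁻¹ * (U (x, j))⁻¹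

/-- The product of the link variables around the plaquette at `x` in the direction `i` of space and
in the direction of time: `U` and `U'` are the variables of the links of space at the times `t` and
`t + 1`, and `V x` is the variable of the link of time from `(x, t)` to `(x, t + 1)`. -/
def timePlaq (U U' : Link D l → G) (V : Site D l → G) (x : Site D l) (i : Fin D) : G :=
  U (x, i) * V (x + unitv i) * (U' (x, i))⁻¹ * (V x)⁻¹

/-- The Polyakov loop at `x`: the product of the variables of the links of time over `x`. -/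
def loop (V : Fin n → Site D l → G) (x : Site D l) : G := (List.ofFn fun t => V t x).prod

end

section

variable {G : Type} [Group G] [TopologicalSpace G] {D l n r : ℕ}

/-- The matrix of `u` in the representation `ρ`. -/
def Rep.mat (ρ : Rep G) (u : G) : Matrix (Fin ρ.dim) (Fin ρ.dim) ℂ := (ρ.hom u).1

/-- The character of the representation `ρ`. -/
def Rep.chi (ρ : Rep G) (u : G) : ℂ := trace (ρ.mat u)

/-- The sum `∑_p Re χ_τ(U_p)` over the plaquettes of `(ℤ/l)^D × ℤ/n`. -/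
def wilson [NeZero l] [NeZero n] (τ : Rep G) (U : Fin n → Link D l → G)
    (V : Fin n → Site D l → G) : ℝ :=
  ∑ t : Fin n, ∑ x : Site D l,
    ((∑ i : Fin D, ∑ j : Fin D, if i < j then (τ.chi (plaq (U t) x i j)).re else 0) +
      ∑ i : Fin D, (τ.chi (timePlaq (U t) (U (t + 1)) (V t) x i)).re)

variable [MeasurableSpace G]

/-- The integral of `F V exp (β ∑_p Re χ_τ(U_p))` over all link variables, with the measure `μ` for
every link. -/
def integral (D l n : ℕ) [NeZero l] [NeZero n] (μ : Measure G) (τ : Rep G) (β : ℝ)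
    (F : (Fin n → Site D l → G) → ℝ) : ℝ :=
  ∫ U : Fin n → Link D l → G, ∫ V : Fin n → Site D l → G, F V * Real.exp (β * wilson τ U V)
    ∂(Measure.pi fun _ => Measure.pi fun _ => μ) ∂(Measure.pi fun _ => Measure.pi fun _ => μ)

/-- The expectation of a function of the variables of the links of time, with the weight
`exp (β ∑_p Re χ_τ(U_p))`. -/
def mean (D l n : ℕ) [NeZero l] [NeZero n] (μ : Measure G) (τ : Rep G) (β : ℝ)
    (F : (Fin n → Site D l → G) → ℝ) : ℝ :=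
  integral D l n μ τ β F / integral D l n μ τ β fun _ => 1

/-- The correlation `⟨∏_i χ_{ρ_i}(P_{x_i})⟩` (real part) of the Polyakov loops at the sites `x i` in
the representations `ρ i`. -/
def corr (n : ℕ) [NeZero l] [NeZero n] (μ : Measure G) (τ : Rep G) (β : ℝ)
    (ρ : Fin r → Rep G) (x : Fin r → Site D l) : ℝ :=
  mean D l n μ τ β fun V => (∏ i, (ρ i).chi (loop V (x i))).re

/-- The correlation `⟨χ_ρ(P_x) conj χ_ρ(P_y)⟩` (real part) of a source `ρ` at `x` and the conjugate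
source at `y`. -/
def corr2 (n : ℕ) [NeZero l] [NeZero n] (μ : Measure G) (τ : Rep G) (β : ℝ)
    (ρ : Rep G) (x y : Site D l) : ℝ :=
  mean D l n μ τ β fun V => (ρ.chi (loop V x) * (starRingEnd ℂ) (ρ.chi (loop V y))).re

/-- Every element of the centre of `G` acts by the same scalar in `ρ` and in `ρ'`. -/
def SameNality (ρ ρ' : Rep G) : Prop :=
  ∀ z ∈ Subgroup.center G, ∃ c : ℂ, ρ.mat z = c • 1 ∧ ρ'.mat z = c • 1

/-- The centre of `G` acts trivially in `ρ`. -/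
def TrivialNality (ρ : Rep G) : Prop := ∀ z ∈ Subgroup.center G, ρ.mat z = 1

/-- For every `η > 0` there are `C` and `L` with `P_ρ'(x) ^ (1 + η) ≤ C ^ n P_ρ(x)` for all `l ≥ L`,
all `n ≥ 1` and all `x`; both correlations are nonnegative. -/
def Dominates (D : ℕ) (μ : Measure G) (τ : Rep G) (β : ℝ) (ρ ρ' : Fin r → Rep G) : Prop :=
  ∀ η : ℝ, 0 < η → ∃ (C : ℝ) (L : ℕ), 0 < C ∧ ∀ (l n : ℕ) [NeZero l] [NeZero n], L ≤ l →
    ∀ x : Fin r → Site D l, 0 ≤ corr n μ τ β ρ x ∧ 0 ≤ corr n μ τ β ρ' x ∧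
      corr n μ τ β ρ' x ^ (1 + η) ≤ C ^ n * corr n μ τ β ρ x

/-- The correlation of the loops is at least `C ^ (-n)`, uniformly in the positions, in the volume and
in the temperature. -/
def Screened (D : ℕ) (μ : Measure G) (τ : Rep G) (β : ℝ) (ρ : Fin r → Rep G) : Prop :=
  ∃ (C : ℝ) (L : ℕ), 0 < C ∧ ∀ (l n : ℕ) [NeZero l] [NeZero n], L ≤ l →
    ∀ x : Fin r → Site D l, 1 ≤ C ^ n * corr n μ τ β ρ x

/-- The correlation at distance `R` is at most `exp (- s n R)`. -/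
def Above (D l n : ℕ) [NeZero l] [NeZero n] (μ : Measure G) (τ : Rep G) (β : ℝ)
    (ρ : Rep G) (s : ℝ) (R : ℕ) : Prop :=
  ∀ (x : Site D l) (i : Fin D),
    corr2 n μ τ β ρ x (x + Pi.single i (R : ZMod l)) ≤ Real.exp (-(s * (n * R)))

/-- The correlation at distance `R` is at least `exp (- s n R)`. -/
def Below (D l n : ℕ) [NeZero l] [NeZero n] (μ : Measure G) (τ : Rep G) (β : ℝ)
    (ρ : Rep G) (s : ℝ) (R : ℕ) : Prop :=
  ∀ (x : Site D l) (i : Fin D),
    Real.exp (-(s * (n * R))) ≤ corr2 n μ τ β ρ x (x + Pi.single i (R : ZMod l))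

/-- At the temperature `1 / n` the string tension of the sources `ρ` is at least `σ`: for all `ε > 0`,
all large `R` and all large `l` (depending on `R`) the correlation at distance `R` is at most
`exp (- (σ - ε) n R)`. -/
def TensionAtLeast (D n : ℕ) [NeZero n] (μ : Measure G) (τ : Rep G) (β : ℝ) (ρ : Rep G)
    (σ : ℝ) : Prop :=
  ∀ ε : ℝ, 0 < ε → ∃ R₀ : ℕ, ∀ R : ℕ, R₀ ≤ R → ∃ l₀ : ℕ, ∀ (l : ℕ) [NeZero l], l₀ ≤ l →
    Above D l n μ τ β ρ (σ - ε) R

/-- At the temperature `1 / n` the string tension of the sources `ρ` is at most `σ`: for all `ε > 0`,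
all large `R` and all large `l` (depending on `R`) the correlation at distance `R` is at least
`exp (- (σ + ε) n R)`. -/
def TensionAtMost (D n : ℕ) [NeZero n] (μ : Measure G) (τ : Rep G) (β : ℝ) (ρ : Rep G)
    (σ : ℝ) : Prop :=
  ∀ ε : ℝ, 0 < ε → ∃ R₀ : ℕ, ∀ R : ℕ, R₀ ≤ R → ∃ l₀ : ℕ, ∀ (l : ℕ) [NeZero l], l₀ ≤ l →
    Below D l n μ τ β ρ (σ + ε) R

/-- At temperature zero the string tension of the sources `ρ` is at least `σ`: as `TensionAtLeast`,
for all large `n` (depending on `R` and `l`). -/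
def ZeroTensionAtLeast (D : ℕ) (μ : Measure G) (τ : Rep G) (β : ℝ) (ρ : Rep G) (σ : ℝ) : Prop :=
  ∀ ε : ℝ, 0 < ε → ∃ R₀ : ℕ, ∀ R : ℕ, R₀ ≤ R → ∃ l₀ : ℕ, ∀ (l : ℕ) [NeZero l], l₀ ≤ l →
    ∃ n₀ : ℕ, ∀ (n : ℕ) [NeZero n], n₀ ≤ n → Above D l n μ τ β ρ (σ - ε) R

/-- At temperature zero the string tension of the sources `ρ` is at most `σ`: as `TensionAtMost`,
for all large `n` (depending on `R` and `l`). -/
def ZeroTensionAtMost (D : ℕ) (μ : Measure G) (τ : Rep G) (β : ℝ) (ρ : Rep G) (σ : ℝ) : Prop :=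
  ∀ ε : ℝ, 0 < ε → ∃ R₀ : ℕ, ∀ R : ℕ, R₀ ≤ R → ∃ l₀ : ℕ, ∀ (l : ℕ) [NeZero l], l₀ ≤ l →
    ∃ n₀ : ℕ, ∀ (n : ℕ) [NeZero n], n₀ ≤ n → Below D l n μ τ β ρ (σ + ε) R

/-- Long range order of the Polyakov loops at the temperature `1 / n`. -/
def Deconfined (D n : ℕ) [NeZero n] (μ : Measure G) (τ : Rep G) (β : ℝ) (ρ : Rep G) : Prop :=
  ∃ c : ℝ, 0 < c ∧ ∃ l₀ : ℕ, ∀ (l : ℕ) [NeZero l], l₀ ≤ l → ∀ x y : Site D l,
    c ≤ corr2 n μ τ β ρ x y

/-- The sources `ρ` and `ρ'` have the same string tension (more precisely, the same lower and the same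
upper string tension) at every temperature and at temperature zero, and their Polyakov loops have
long range order at the same temperatures. -/
def SamePhases (D : ℕ) (μ : Measure G) (τ : Rep G) (β : ℝ) (ρ ρ' : Rep G) : Prop :=
  (∀ (n : ℕ) [NeZero n] (σ : ℝ),
    (TensionAtLeast D n μ τ β ρ σ ↔ TensionAtLeast D n μ τ β ρ' σ) ∧
    (TensionAtMost D n μ τ β ρ σ ↔ TensionAtMost D n μ τ β ρ' σ)) ∧
  (∀ σ : ℝ,
    (ZeroTensionAtLeast D μ τ β ρ σ ↔ ZeroTensionAtLeast D μ τ β ρ' σ) ∧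
    (ZeroTensionAtMost D μ τ β ρ σ ↔ ZeroTensionAtMost D μ τ β ρ' σ)) ∧
  (∀ (n : ℕ) [NeZero n], Deconfined D n μ τ β ρ ↔ Deconfined D n μ τ β ρ')

end

open Pool.Agent.X168

variable {D l n r : ℕ}

/-- A Haar probability measure is invariant under right multiplications. -/
lemma right_inv {H : Type*} [Group H] [TopologicalSpace H] [IsTopologicalGroup H]
    [CompactSpace H] [MeasurableSpace H] [BorelSpace H] (μ : Measure H)
    [IsProbabilityMeasure μ] [μ.IsHaarMeasure] : μ.IsMulRightInvariant := by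
  refine ⟨fun g => ?_⟩
  have h1 : IsProbabilityMeasure (Measure.map (fun x => x * g) μ) :=
    Measure.isProbabilityMeasure_map (measurable_mul_const g).aemeasurable
  exact Measure.isHaarMeasure_eq_of_isProbabilityMeasure _ _

/-! ### real inequalities -/

lemma exists_k (r : ℕ) {η : ℝ} (hη : 0 < η) :
    ∃ k : ℕ, 0 < k ∧ (((k + 1) ^ r : ℕ) : ℝ) ≤ (1 + η) * ((k ^ r : ℕ) : ℝ) := by
  have hl : 0 < Real.log (1 + η) := Real.log_pos (by linarith)
  obtain ⟨k, hk⟩ := exists_nat_gt ((r : ℝ) / Real.log (1 + η))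
  have hk0 : (0 : ℝ) < k := lt_of_le_of_lt (by positivity) hk
  refine ⟨k, by exact_mod_cast hk0, ?_⟩
  rw [div_lt_iff₀ hl] at hk
  have h1 : (1 + (k : ℝ)⁻¹) ^ r ≤ 1 + η := by
    have h2 : 1 + (k : ℝ)⁻¹ ≤ Real.exp ((k : ℝ)⁻¹) := by
      have := Real.add_one_le_exp ((k : ℝ)⁻¹)
      linarith
    refine (pow_le_pow_left₀ (by positivity) h2 r).trans ?_
    rw [← Real.exp_nat_mul, ← Real.exp_log (show (0 : ℝ) < 1 + η by linarith)]
    refine Real.exp_le_exp.2 ?_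
    rw [← div_eq_mul_inv, div_le_iff₀ hk0]
    linarith
  push_cast
  have h3 : ((k : ℝ) + 1) ^ r = (1 + (k : ℝ)⁻¹) ^ r * (k : ℝ) ^ r := by
    rw [← mul_pow]
    congr 1
    field_simp
  rw [h3]
  exact mul_le_mul_of_nonneg_right h1 (by positivity)

lemma conv {A B M C η : ℝ} {a b n : ℕ} (hA : 0 ≤ A) (hB : 0 ≤ B) (hAM : A ≤ M) (hM : 1 ≤ M)
    (hb : 0 < b) (hab : (a : ℝ) ≤ (1 + η) * b) (hη : 0 < η) (hC : 0 < C) (hn : n ≠ 0)
    (h : A ^ a ≤ C ^ n * B ^ b) :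
    A ^ (1 + η) ≤ (C ^ ((b : ℝ)⁻¹) * M ^ (1 + η)) ^ n * B := by
  have hM0 : 0 < M := by linarith
  rcases hA.eq_or_lt with rfl | hA'
  · rw [Real.zero_rpow (by linarith)]
    positivity
  have hb' : (0 : ℝ) < b := by exact_mod_cast hb
  have h1 : A ^ (1 + η) = (A ^ a) ^ ((b : ℝ)⁻¹) * A ^ (1 + η - a * (b : ℝ)⁻¹) := by
    rw [← Real.rpow_natCast, ← Real.rpow_mul hA, ← Real.rpow_add hA']
    congr 1
    ring
  have h2 : 0 ≤ 1 + η - a * (b : ℝ)⁻¹ := by
    rw [sub_nonneg, ← div_eq_mul_inv, div_le_iff₀ hb']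
    exact hab
  have h3 : A ^ (1 + η - a * (b : ℝ)⁻¹) ≤ M ^ (1 + η) :=
    (Real.rpow_le_rpow hA hAM h2).trans (Real.rpow_le_rpow_of_exponent_le hM (by
      have : 0 ≤ a * (b : ℝ)⁻¹ := by positivity
      linarith))
  have h4 : (A ^ a) ^ ((b : ℝ)⁻¹) ≤ (C ^ ((b : ℝ)⁻¹)) ^ n * B := by
    calc (A ^ a) ^ ((b : ℝ)⁻¹) ≤ (C ^ n * B ^ b) ^ ((b : ℝ)⁻¹) :=
          Real.rpow_le_rpow (by positivity) h (by positivity)
      _ = (C ^ n) ^ ((b : ℝ)⁻¹) * (B ^ b) ^ ((b : ℝ)⁻¹) :=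
          Real.mul_rpow (by positivity) (by positivity)
      _ = _ := by
          rw [Real.pow_rpow_inv_natCast hB hb.ne', ← Real.rpow_natCast C n,
            ← Real.rpow_mul hC.le, ← Real.rpow_natCast (C ^ ((b : ℝ)⁻¹)),
            ← Real.rpow_mul hC.le, mul_comm (n : ℝ)]
  have h5 : M ^ (1 + η) ≤ (M ^ (1 + η)) ^ n :=
    le_self_pow₀ (Real.one_le_rpow hM (by linarith)) hn
  calc A ^ (1 + η) = (A ^ a) ^ ((b : ℝ)⁻¹) * A ^ (1 + η - a * (b : ℝ)⁻¹) := h1
    _ ≤ ((C ^ ((b : ℝ)⁻¹)) ^ n * B) * (M ^ (1 + η)) ^ n :=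
        mul_le_mul h4 (h3.trans h5) (Real.rpow_nonneg hA _) (by positivity)
    _ = (C ^ ((b : ℝ)⁻¹) * M ^ (1 + η)) ^ n * B := by
        rw [mul_pow]
        ring

lemma low {P P' C η σ ε : ℝ} {n R : ℕ} (hη : 0 < η) (hε : 0 < ε) (hη1 : η * (|σ| + ε) ≤ ε / 4)
    (hC : 0 < C) (hlog : Real.log C ≤ ε / 4 * R)
    (hP : Real.exp (-((σ + ε / 2) * (n * R))) ≤ P) (h : P ^ (1 + η) ≤ C ^ n * P') :
    Real.exp (-((σ + ε) * (n * R))) ≤ P' := by
  have h1 : Real.exp (-((σ + ε / 2) * (n * R)) * (1 + η)) ≤ C ^ n * P' := by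
    refine le_trans ?_ h
    rw [Real.exp_mul]
    exact Real.rpow_le_rpow (Real.exp_pos _).le hP (by linarith)
  have h2 : C ^ n = Real.exp (n * Real.log C) := by
    rw [mul_comm, Real.exp_mul, Real.exp_log hC, Real.rpow_natCast]
  have h3 : Real.exp (-(n * Real.log C)) * Real.exp (-((σ + ε / 2) * (n * R)) * (1 + η)) ≤ P' := by
    have h4 := mul_le_mul_of_nonneg_left h1 (Real.exp_pos (-(n * Real.log C))).le
    have h5 : Real.exp (-(n * Real.log C)) * (C ^ n * P') = P' := by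
      rw [h2, ← mul_assoc, ← Real.exp_add, neg_add_cancel, Real.exp_zero, one_mul]
    rwa [h5] at h4
  refine le_trans ?_ h3
  rw [← Real.exp_add]
  refine Real.exp_le_exp.2 ?_
  have hn : (0 : ℝ) ≤ n := Nat.cast_nonneg n
  have hR : (0 : ℝ) ≤ R := Nat.cast_nonneg R
  have q0 : 0 ≤ (n : ℝ) * R := mul_nonneg hn hR
  have h5 : η * (σ + ε / 2) ≤ ε / 4 := by
    refine le_trans (mul_le_mul_of_nonneg_left ?_ hη.le) hη1
    have := le_abs_self σ
    linarith
  have h6 := mul_le_mul_of_nonneg_right h5 q0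
  have h7 := mul_le_mul_of_nonneg_left hlog hn
  nlinarith

lemma up {P P' C η σ ε : ℝ} {n R : ℕ} (hη : 0 < η) (hε : 0 < ε) (hη1 : η * (|σ| + ε) ≤ ε / 4)
    (hC : 0 < C) (hlog : Real.log C ≤ ε / 4 * R)
    (hP : P ≤ Real.exp (-((σ - ε / 2) * (n * R)))) (h : P' ^ (1 + η) ≤ C ^ n * P) :
    P' ≤ Real.exp (-((σ - ε) * (n * R))) := by
  by_contra hcon
  rw [not_le] at hcon
  have h2 : C ^ n = Real.exp (n * Real.log C) := by
    rw [mul_comm, Real.exp_mul, Real.exp_log hC, Real.rpow_natCast]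
  have h1 : Real.exp (-((σ - ε) * (n * R)) * (1 + η)) <
      Real.exp (n * Real.log C + -((σ - ε / 2) * (n * R))) := by
    rw [Real.exp_mul, Real.exp_add, ← h2]
    refine lt_of_lt_of_le (Real.rpow_lt_rpow (Real.exp_pos _).le hcon (by linarith)) ?_
    exact h.trans (mul_le_mul_of_nonneg_left hP (by positivity))
  rw [Real.exp_lt_exp] at h1
  have hn : (0 : ℝ) ≤ n := Nat.cast_nonneg n
  have hR : (0 : ℝ) ≤ R := Nat.cast_nonneg R
  have q0 : 0 ≤ (n : ℝ) * R := mul_nonneg hn hR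
  have h5 : η * (σ - ε) ≤ ε / 4 := by
    refine le_trans (mul_le_mul_of_nonneg_left ?_ hη.le) hη1
    have := le_abs_self σ
    linarith
  have h6 := mul_le_mul_of_nonneg_right h5 q0
  have h7 := mul_le_mul_of_nonneg_left hlog hn
  nlinarith

/-! ### the bridge to the helper files -/

variable {G : Type} [Group G] [TopologicalSpace G]

/-- The faithful representation in the form used by the helper files. -/
def emb (τ : Rep G) (hτ : Function.Injective τ.hom) : PK.Emb G τ.dim := ⟨τ.hom, τ.cont, hτ⟩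

/-- The representation in the form used by the helper files. -/
def Rep.rp (ρ : Rep G) : PK.Rp G := ⟨ρ.dim, ρ.hom, ρ.cont⟩

lemma chi_eq (ρ : Rep G) (u : G) : ρ.rp.ct u = ρ.chi u := rfl

section bridge

variable [NeZero l] [IsTopologicalGroup G] [CompactSpace G] [T2Space G]
  [SecondCountableTopology G]
  [MeasurableSpace G] [BorelSpace G] (μ : Measure G) [IsProbabilityMeasure μ] [μ.IsHaarMeasure]
  [μ.IsMulRightInvariant] (τ : Rep G) (hτ : Function.Injective τ.hom)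

lemma wilson_eq (m : ℕ) (U : Fin (m + 1) → Link D l → G) (V : Fin (m + 1) → Site D l → G) :
    wilson τ U V = PK.SS (emb τ hτ) (NA.sr : Link D l → _) NA.tg
      (fun p : PK.Pqt D l => PK.pw p.1) U V := by
  unfold wilson PK.SS
  refine Finset.sum_congr rfl fun t _ => ?_
  rw [Finset.sum_add_distrib]
  congr 1
  · have h1 : ∀ p : Site D l × Fin D × Fin D, PK.ch (emb τ hτ) (NA.hol (PK.pw p) (U t)) =
        (τ.chi (plaq (U t) p.1 p.2.1 p.2.2)).re := by
      intro p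
      have h2 : NA.hol (PK.pw p) (U t) = plaq (U t) p.1 p.2.1 p.2.2 := by
        unfold plaq unitv
        simp only [PK.pw, NA.hol, mul_one, mul_assoc]
      rw [h2]
      rfl
    have h3 : ∑ p : PK.Pqt D l, PK.ch (emb τ hτ) (NA.hol (PK.pw p.1) (U t)) =
        ∑ p : Site D l × Fin D × Fin D,
          if p.2.1 < p.2.2 then (τ.chi (plaq (U t) p.1 p.2.1 p.2.2)).re else 0 := by
      rw [← Finset.sum_filter]
      have h4 : ∑ p ∈ Finset.univ.filter (fun p : Site D l × Fin D × Fin D => p.2.1 < p.2.2),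
          (τ.chi (plaq (U t) p.1 p.2.1 p.2.2)).re =
          ∑ p : PK.Pqt D l, (τ.chi (plaq (U t) p.1.1 p.1.2.1 p.1.2.2)).re :=
        Finset.sum_subtype _ (fun x => by simp) _
      rw [h4]
      exact Finset.sum_congr rfl fun p _ => h1 p.1
    rw [h3, Fintype.sum_prod_type]
    refine Finset.sum_congr rfl fun x _ => ?_
    rw [Fintype.sum_prod_type]
  · unfold PK.rt
    rw [Fintype.sum_prod_type]
    refine Finset.sum_congr rfl fun x _ => Finset.sum_congr rfl fun i _ => ?_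
    have h2 : (U t * (PK.la (PK.ev G (NA.sr : Link D l → _)) (PK.ev G NA.tg) (V t)
        (U (t + 1)))⁻¹) (x, i) = timePlaq (U t) (U (t + 1)) (V t) x i := by
      show U t (x, i) * (V t x * U (t + 1) (x, i) * (V t (x + Pi.single i 1))⁻¹)⁻¹ = _
      unfold timePlaq unitv
      group
    show _ = (trace ((τ.hom ((U t * (PK.la (PK.ev G (NA.sr : Link D l → _))
      (PK.ev G NA.tg) (V t) (U (t + 1)))⁻¹) (x, i))).1)).re
    rw [h2]
    rfl

lemma pw_ok (p : PK.Pqt D l) : ∃ v, NA.IsPath NA.sr NA.tg v (PK.pw p.1) v :=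
  ⟨p.1.1, PK.pw_path p.1⟩

lemma corr_eq {β : ℝ} (m : ℕ) (ρ : Fin r → Rep G) (x : Fin r → Site D l) :
    corr (m + 1) μ τ β ρ x = PK.zm (emb τ hτ) μ β m (fun i => (ρ i).rp) x /
      PK.z1 (emb τ hτ) μ D l β m := by
  unfold corr mean integral
  have hg : Continuous fun c : Site D l → G => ∏ i, ((ρ i).rp).ct (c (x i)) := by
    refine continuous_finsetProd _ fun i _ => ?_
    unfold PK.Rp.ct
    exact PK.tr_UR_cont (PK.rep_UR (X := Site D l) (ρ i).cont (x i))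
  have h1 := PK.out (emb τ hτ) μ (NA.sr : Link D l → _) NA.tg (fun p : PK.Pqt D l => PK.pw p.1)
    pw_ok β hg m
  have h2 := PK.out1 (emb τ hτ) μ (NA.sr : Link D l → _) NA.tg (fun p : PK.Pqt D l => PK.pw p.1)
    pw_ok β m
  congr 1
  · rw [PK.zm, ← h1]
    simp only [wilson_eq τ hτ, PK.pr_apply]
    rfl
  · rw [PK.z1, ← h2]
    simp only [wilson_eq τ hτ, one_mul]

lemma z1_pos (β : ℝ) (m : ℕ) : 0 < PK.z1 (emb τ hτ) μ D l β m :=
  PK.zf_pos (emb τ hτ) μ (NA.sr : Link D l → _) NA.tg (fun p : PK.Pqt D l => PK.pw p.1) pw_ok β m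

lemma zm_le (β : ℝ) (m : ℕ) (R : Fin r → PK.Rp G) (x : Fin r → Site D l) :
    PK.zm (emb τ hτ) μ β m R x ≤ ((∏ i, (R i).dim : ℕ) : ℝ) * PK.z1 (emb τ hτ) μ D l β m := by
  obtain ⟨B, _, _, Q, hQ, hc, ht⟩ := PK.prodUR R x Finset.univ
  have hb : ∀ c : Site D l → G, ‖∏ i, (R i).ct (c (x i))‖ ≤ ((∏ i, (R i).dim : ℕ) : ℝ) := by
    intro c
    rw [← ht, ← hc]
    exact PK.tr_norm hQ c
  have hg : Continuous fun c : Site D l → G => ∏ i, (R i).ct (c (x i)) := by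
    refine continuous_finsetProd _ fun i _ => ?_
    unfold PK.Rp.ct
    exact PK.tr_UR_cont (PK.rep_UR (X := Site D l) (R i).cont (x i))
  unfold PK.zm PK.z1
  exact PK.zf_bdd (emb τ hτ) μ (PK.mg_cont (emb τ hτ) (fun p : PK.Pqt D l => PK.pw p.1) β)
    (fun U => (Real.exp_pos _).le) hg hb m

include hτ in
lemma corr_nn {β : ℝ} (hβ : 0 < β) (m : ℕ) (ρ : Fin r → Rep G) (x : Fin r → Site D l) :
    0 ≤ corr (m + 1) μ τ β ρ x := by
  rw [corr_eq μ τ hτ m ρ x]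
  exact div_nonneg (PK.zm_nn (emb τ hτ) μ hβ m _ x) (z1_pos μ τ hτ β m).le

include hτ in
lemma corr_le (β : ℝ) (m : ℕ) (ρ : Fin r → Rep G) (x : Fin r → Site D l) :
    corr (m + 1) μ τ β ρ x ≤ ((∏ i, (ρ i).dim : ℕ) : ℝ) := by
  rw [corr_eq μ τ hτ m ρ x, div_le_iff₀ (z1_pos μ τ hτ β m)]
  exact zm_le μ τ hτ β m (fun i => (ρ i).rp) x

end bridge

section main

variable [IsTopologicalGroup G] [CompactSpace G] [T2Space G] [SecondCountableTopology G]
  [MeasurableSpace G] [BorelSpace G]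
  (μ : Measure G) [IsProbabilityMeasure μ] [μ.IsHaarMeasure] [μ.IsMulRightInvariant]
  (τ : Rep G) (hτ : Function.Injective τ.hom)

include hτ in
/-- **Comparison of the correlations.** -/
theorem dominates [PreconnectedSpace G] (hD : 2 ≤ D) {β : ℝ} (hβ : 0 < β) (ρ ρ' : Fin r → Rep G)
    (hdim : ∀ i, 1 ≤ (ρ i).dim) (hs : ∀ i, SameNality (ρ i) (ρ' i)) :
    Dominates D μ τ β ρ ρ' := by
  intro η hη
  obtain ⟨k, hk0, hk⟩ := exists_k r hη
  obtain ⟨C, l₀, hC, H⟩ := PK.ms_main (emb τ hτ) μ hD (fun i => (ρ' i).rp) (fun i => (ρ i).rp)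
    (fun i => (Nat.one_le_iff_ne_zero.1 (hdim i))) (fun i z hz => by
      obtain ⟨c, h1, h2⟩ := hs i z hz
      exact ⟨c, h2, h1⟩) hβ k Finset.univ
  set b : ℕ := k ^ r with hb
  set M : ℝ := ((∏ i, (ρ' i).dim : ℕ) : ℝ) + 1 with hM
  have hM1 : 1 ≤ M := by
    have : (0 : ℝ) ≤ ((∏ i, (ρ' i).dim : ℕ) : ℝ) := Nat.cast_nonneg _
    linarith
  have hb0 : 0 < b := Nat.pow_pos hk0
  refine ⟨C ^ ((b : ℝ)⁻¹) * M ^ (1 + η), l₀, ?_, ?_⟩
  · have hM0 : 0 < M := by linarith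
    positivity
  intro l n _ _ hl x
  obtain ⟨m, rfl⟩ := Nat.exists_eq_succ_of_ne_zero (NeZero.ne n)
  refine ⟨corr_nn μ τ hτ hβ m ρ x, corr_nn μ τ hτ hβ m ρ' x, ?_⟩
  obtain ⟨e, he, h1⟩ := H l hl x m
  have hcard : (Finset.univ : Finset (Fin r)).card = r := by simp
  rw [hcard] at he h1
  simp only [Finset.mem_univ, if_true] at h1
  have z0 := z1_pos (D := D) (l := l) μ τ hτ β m
  refine conv (corr_nn μ τ hτ hβ m ρ' x) (corr_nn μ τ hτ hβ m ρ x)
    ((corr_le μ τ hτ β m ρ' x).trans (by linarith)) hM1 hb0 (a := (k + 1) ^ r) hk hη hC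
    (Nat.succ_ne_zero m) ?_
  rw [corr_eq μ τ hτ m ρ x, corr_eq μ τ hτ m ρ' x, div_pow, div_pow, mul_div_assoc']
  rw [div_le_div_iff₀ (by positivity) (by positivity)]
  calc PK.zm (emb τ hτ) μ β m (fun i => (ρ' i).rp) x ^ ((k + 1) ^ r) *
        PK.z1 (emb τ hτ) μ D l β m ^ b
      ≤ (C ^ (m + 1) * (PK.zm (emb τ hτ) μ β m (fun i => (ρ i).rp) x ^ b *
        PK.z1 (emb τ hτ) μ D l β m ^ e)) * PK.z1 (emb τ hτ) μ D l β m ^ b :=
        mul_le_mul_of_nonneg_right h1 (by positivity)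
    _ = C ^ (m + 1) * PK.zm (emb τ hτ) μ β m (fun i => (ρ i).rp) x ^ b *
        PK.z1 (emb τ hτ) μ D l β m ^ ((k + 1) ^ r) := by
        rw [← he, pow_add]
        ring

/-- The trivial representation. -/
def trv (G : Type) [Group G] [TopologicalSpace G] : Rep G := ⟨1, 1, continuous_const⟩

lemma trv_mat (u : G) : (trv G).mat u = 1 := rfl

include hτ in
lemma corr_trv [NeZero l] (β : ℝ) (m : ℕ) (x : Fin r → Site D l) :
    corr (m + 1) μ τ β (fun _ => trv G) x = 1 := by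
  rw [corr_eq μ τ hτ]
  have h1 : PK.zm (emb τ hτ) μ β m (fun _ : Fin r => (trv G).rp) x = PK.z1 (emb τ hτ) μ D l β m := by
    unfold PK.zm PK.z1
    congr 1
    funext c
    refine Finset.prod_eq_one fun i _ => ?_
    rw [chi_eq]
    unfold Rep.chi
    rw [trv_mat]
    show trace (1 : Matrix (Fin 1) (Fin 1) ℂ) = 1
    rw [Matrix.trace_one, Fintype.card_fin, Nat.cast_one]
  rw [h1, div_self (z1_pos μ τ hτ β m).ne']

include hτ in
/-- **Screening.** -/
theorem screened [PreconnectedSpace G] (hD : 2 ≤ D) {β : ℝ} (hβ : 0 < β) (ρ : Fin r → Rep G)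
    (hdim : ∀ i, 1 ≤ (ρ i).dim) (ht : ∀ i, TrivialNality (ρ i)) : Screened D μ τ β ρ := by
  obtain ⟨C, L, hC, H⟩ := dominates μ τ hτ hD hβ ρ (fun _ => trv G) hdim (fun i z hz =>
    ⟨1, by rw [ht i z hz, one_smul], by rw [trv_mat, one_smul]⟩) 1 one_pos
  refine ⟨C, L, hC, ?_⟩
  intro l n _ _ hl x
  obtain ⟨_, _, h1⟩ := H l n hl x
  obtain ⟨m, rfl⟩ := Nat.exists_eq_succ_of_ne_zero (NeZero.ne n)
  have h2 := corr_trv (G := G) μ τ hτ β m x
  rw [h2, Real.one_rpow] at h1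
  exact h1

/-- The complex conjugate of a representation. -/
def Rep.conj {G : Type} [Group G] [TopologicalSpace G] (ρ : Rep G) : Rep G where
  dim := ρ.dim
  hom :=
    { toFun := fun u => ⟨(ρ.mat u).map (starRingEnd ℂ), by
        rw [Matrix.mem_unitaryGroup_iff]
        have h1 : star ((ρ.mat u).map (starRingEnd ℂ)) = (star (ρ.mat u)).map (starRingEnd ℂ) := by
          ext i j
          rfl
        have h2 : ρ.mat u * star (ρ.mat u) = 1 := Matrix.mem_unitaryGroup_iff.1 (ρ.hom u).2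
        rw [h1, ← Matrix.map_mul, h2, Matrix.map_one _ (map_zero _) (map_one _)]⟩
      map_one' := by
        apply Subtype.ext
        show (ρ.mat 1).map (starRingEnd ℂ) = 1
        have h1 : ρ.mat 1 = 1 := by
          unfold Rep.mat
          rw [map_one]
          rfl
        rw [h1, Matrix.map_one _ (map_zero _) (map_one _)]
      map_mul' := fun u v => by
        apply Subtype.ext
        show (ρ.mat (u * v)).map (starRingEnd ℂ) =
          (ρ.mat u).map (starRingEnd ℂ) * (ρ.mat v).map (starRingEnd ℂ)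
        have h1 : ρ.mat (u * v) = ρ.mat u * ρ.mat v := by
          unfold Rep.mat
          rw [map_mul]
          rfl
        rw [h1, Matrix.map_mul] }
  cont := by
    refine Continuous.subtype_mk ?_ _
    have h1 : Continuous fun u => ρ.mat u := continuous_subtype_val.comp ρ.cont
    exact h1.matrix_map Complex.continuous_conj

lemma corr2_eq [NeZero l] [NeZero n] (β : ℝ) (ρ : Rep G) (x y : Site D l) :
    corr2 n μ τ β ρ x y = corr n μ τ β ![ρ, ρ.conj] ![x, y] := by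
  unfold corr2 corr
  congr 1
  funext V
  rw [Fin.prod_univ_two]
  have h1 : ρ.conj.chi (loop V y) = (starRingEnd ℂ) (ρ.chi (loop V y)) := PK.conj_tr _
  show _ = (ρ.chi (loop V x) * ρ.conj.chi (loop V y)).re
  rw [h1]

lemma SameNality.conj {ρ ρ' : Rep G} (h : SameNality ρ ρ') : SameNality ρ.conj ρ'.conj := by
  intro z hz
  obtain ⟨c, h1, h2⟩ := h z hz
  have h3 : ∀ σ : Rep G, σ.mat z = c • 1 → σ.conj.mat z = (starRingEnd ℂ c) • 1 := by
    intro σ hσ
    show (σ.mat z).map (starRingEnd ℂ) = (starRingEnd ℂ c) • (1 : Matrix (Fin σ.dim) (Fin σ.dim) ℂ)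
    rw [hσ]
    ext i j
    by_cases hij : i = j
    · subst hij
      simp
    · simp [hij]
  exact ⟨_, h3 ρ h1, h3 ρ' h2⟩

lemma SameNality.symm {ρ ρ' : Rep G} (h : SameNality ρ ρ') : SameNality ρ' ρ := by
  intro z hz
  obtain ⟨c, h1, h2⟩ := h z hz
  exact ⟨c, h2, h1⟩

include hτ in
lemma dom_pair [PreconnectedSpace G] (hD : 2 ≤ D) {β : ℝ} (hβ : 0 < β) {ρ ρ' : Rep G}
    (hρ : 1 ≤ ρ.dim) (hs : SameNality ρ ρ') {η : ℝ} (hη : 0 < η) :
    ∃ (C : ℝ) (L : ℕ), 0 < C ∧ ∀ (l n : ℕ) [NeZero l] [NeZero n], L ≤ l → ∀ x y : Site D l,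
      0 ≤ corr2 n μ τ β ρ x y ∧ 0 ≤ corr2 n μ τ β ρ' x y ∧
        corr2 n μ τ β ρ' x y ^ (1 + η) ≤ C ^ n * corr2 n μ τ β ρ x y := by
  obtain ⟨C, L, hC, H⟩ := dominates μ τ hτ hD hβ ![ρ, ρ.conj] ![ρ', ρ'.conj]
    (Fin.forall_fin_two.2 ⟨hρ, hρ⟩) (Fin.forall_fin_two.2 ⟨hs, hs.conj⟩) η hη
  refine ⟨C, L, hC, ?_⟩
  intro l n _ _ hl x y
  rw [corr2_eq, corr2_eq]
  exact H l n hl ![x, y]

/-- the exponent used for the tensions -/
lemma eta_ok (σ : ℝ) {ε : ℝ} (hε : 0 < ε) :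
    0 < ε / (4 * (|σ| + ε)) ∧ ε / (4 * (|σ| + ε)) * (|σ| + ε) ≤ ε / 4 := by
  have hden : 0 < |σ| + ε := by positivity
  refine ⟨by positivity, ?_⟩
  have : ε / (4 * (|σ| + ε)) * (|σ| + ε) = ε / 4 := by
    field_simp
  rw [this]

lemma log_ok {C ε : ℝ} {R₀ R : ℕ} (hε : 0 < ε) (h1 : 4 * Real.log C / ε ≤ R₀) (h2 : R₀ ≤ R) :
    Real.log C ≤ ε / 4 * R := by
  rw [div_le_iff₀ hε] at h1
  have h3 : (R₀ : ℝ) ≤ R := by exact_mod_cast h2
  nlinarith

include hτ in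
lemma transfer_above [PreconnectedSpace G] (hD : 2 ≤ D) {β : ℝ} (hβ : 0 < β) {ρ ρ' : Rep G}
    (hρ : 1 ≤ ρ.dim) (hs : SameNality ρ ρ') (σ : ℝ) {ε : ℝ} (hε : 0 < ε) :
    ∃ R₁ L₁ : ℕ, ∀ R : ℕ, R₁ ≤ R → ∀ (l : ℕ) [NeZero l], L₁ ≤ l → ∀ (n : ℕ) [NeZero n],
      Above D l n μ τ β ρ (σ - ε / 2) R → Above D l n μ τ β ρ' (σ - ε) R := by
  obtain ⟨hη0, hη1⟩ := eta_ok σ hε
  obtain ⟨C, L, hC, H⟩ := dom_pair μ τ hτ hD hβ hρ hs hη0
  obtain ⟨R₁, hR₁⟩ := exists_nat_ge (4 * Real.log C / ε)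
  refine ⟨R₁, L, ?_⟩
  intro R hR l _ hl n _ hW x i
  obtain ⟨_, _, d1⟩ := H l n hl x (x + Pi.single i (R : ZMod l))
  exact up hη0 hε hη1 hC (log_ok hε hR₁ hR) (hW x i) d1

include hτ in
lemma transfer_below [PreconnectedSpace G] (hD : 2 ≤ D) {β : ℝ} (hβ : 0 < β) {ρ ρ' : Rep G}
    (hρ' : 1 ≤ ρ'.dim) (hs : SameNality ρ ρ') (σ : ℝ) {ε : ℝ} (hε : 0 < ε) :
    ∃ R₁ L₁ : ℕ, ∀ R : ℕ, R₁ ≤ R → ∀ (l : ℕ) [NeZero l], L₁ ≤ l → ∀ (n : ℕ) [NeZero n],
      Below D l n μ τ β ρ (σ + ε / 2) R → Below D l n μ τ β ρ' (σ + ε) R := by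
  obtain ⟨hη0, hη1⟩ := eta_ok σ hε
  obtain ⟨C, L, hC, H⟩ := dom_pair μ τ hτ hD hβ hρ' hs.symm hη0
  obtain ⟨R₁, hR₁⟩ := exists_nat_ge (4 * Real.log C / ε)
  refine ⟨R₁, L, ?_⟩
  intro R hR l _ hl n _ hW x i
  obtain ⟨_, _, d1⟩ := H l n hl x (x + Pi.single i (R : ZMod l))
  exact low hη0 hε hη1 hC (log_ok hε hR₁ hR) (hW x i) d1

include hτ in
lemma atLeast_of [PreconnectedSpace G] (hD : 2 ≤ D) {β : ℝ} (hβ : 0 < β) {ρ ρ' : Rep G}
    (hρ : 1 ≤ ρ.dim) (hs : SameNality ρ ρ') (n : ℕ) [NeZero n] (σ : ℝ)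
    (h : TensionAtLeast D n μ τ β ρ σ) : TensionAtLeast D n μ τ β ρ' σ := by
  intro ε hε
  obtain ⟨R₁, L₁, H⟩ := transfer_above μ τ hτ hD hβ hρ hs σ hε
  obtain ⟨R₀, h1⟩ := h (ε / 2) (by linarith)
  refine ⟨max R₀ R₁, ?_⟩
  intro R hR
  obtain ⟨l₀, h2⟩ := h1 R (le_trans (le_max_left _ _) hR)
  refine ⟨max l₀ L₁, ?_⟩
  intro l _ hl
  exact H R (le_trans (le_max_right _ _) hR) l (le_trans (le_max_right _ _) hl) n
    (h2 l (le_trans (le_max_left _ _) hl))

include hτ in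
lemma atMost_of [PreconnectedSpace G] (hD : 2 ≤ D) {β : ℝ} (hβ : 0 < β) {ρ ρ' : Rep G}
    (hρ' : 1 ≤ ρ'.dim) (hs : SameNality ρ ρ') (n : ℕ) [NeZero n] (σ : ℝ)
    (h : TensionAtMost D n μ τ β ρ σ) : TensionAtMost D n μ τ β ρ' σ := by
  intro ε hε
  obtain ⟨R₁, L₁, H⟩ := transfer_below μ τ hτ hD hβ hρ' hs σ hε
  obtain ⟨R₀, h1⟩ := h (ε / 2) (by linarith)
  refine ⟨max R₀ R₁, ?_⟩
  intro R hR
  obtain ⟨l₀, h2⟩ := h1 R (le_trans (le_max_left _ _) hR)
  refine ⟨max l₀ L₁, ?_⟩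
  intro l _ hl
  exact H R (le_trans (le_max_right _ _) hR) l (le_trans (le_max_right _ _) hl) n
    (h2 l (le_trans (le_max_left _ _) hl))

include hτ in
lemma zero_atLeast_of [PreconnectedSpace G] (hD : 2 ≤ D) {β : ℝ} (hβ : 0 < β) {ρ ρ' : Rep G}
    (hρ : 1 ≤ ρ.dim) (hs : SameNality ρ ρ') (σ : ℝ)
    (h : ZeroTensionAtLeast D μ τ β ρ σ) : ZeroTensionAtLeast D μ τ β ρ' σ := by
  intro ε hε
  obtain ⟨R₁, L₁, H⟩ := transfer_above μ τ hτ hD hβ hρ hs σ hε
  obtain ⟨R₀, h1⟩ := h (ε / 2) (by linarith)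
  refine ⟨max R₀ R₁, ?_⟩
  intro R hR
  obtain ⟨l₀, h2⟩ := h1 R (le_trans (le_max_left _ _) hR)
  refine ⟨max l₀ L₁, ?_⟩
  intro l _ hl
  obtain ⟨n₀, h3⟩ := h2 l (le_trans (le_max_left _ _) hl)
  exact ⟨n₀, fun n _ hn => H R (le_trans (le_max_right _ _) hR) l
    (le_trans (le_max_right _ _) hl) n (h3 n hn)⟩

include hτ in
lemma zero_atMost_of [PreconnectedSpace G] (hD : 2 ≤ D) {β : ℝ} (hβ : 0 < β) {ρ ρ' : Rep G}
    (hρ' : 1 ≤ ρ'.dim) (hs : SameNality ρ ρ') (σ : ℝ)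
    (h : ZeroTensionAtMost D μ τ β ρ σ) : ZeroTensionAtMost D μ τ β ρ' σ := by
  intro ε hε
  obtain ⟨R₁, L₁, H⟩ := transfer_below μ τ hτ hD hβ hρ' hs σ hε
  obtain ⟨R₀, h1⟩ := h (ε / 2) (by linarith)
  refine ⟨max R₀ R₁, ?_⟩
  intro R hR
  obtain ⟨l₀, h2⟩ := h1 R (le_trans (le_max_left _ _) hR)
  refine ⟨max l₀ L₁, ?_⟩
  intro l _ hl
  obtain ⟨n₀, h3⟩ := h2 l (le_trans (le_max_left _ _) hl)
  exact ⟨n₀, fun n _ hn => H R (le_trans (le_max_right _ _) hR) l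
    (le_trans (le_max_right _ _) hl) n (h3 n hn)⟩

include hτ in
lemma deconf_of [PreconnectedSpace G] (hD : 2 ≤ D) {β : ℝ} (hβ : 0 < β) {ρ ρ' : Rep G}
    (hρ' : 1 ≤ ρ'.dim) (hs : SameNality ρ ρ') (n : ℕ) [NeZero n]
    (h : Deconfined D n μ τ β ρ) : Deconfined D n μ τ β ρ' := by
  obtain ⟨c, hc, l₀, h1⟩ := h
  obtain ⟨C, L, hC, H⟩ := dom_pair μ τ hτ hD hβ hρ' hs.symm one_pos
  refine ⟨c ^ (1 + 1 : ℝ) / C ^ n, by positivity, max l₀ L, ?_⟩
  intro l _ hl x y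
  obtain ⟨_, _, h2⟩ := H l n (le_trans (le_max_right _ _) hl) x y
  rw [div_le_iff₀ (by positivity), mul_comm]
  exact (Real.rpow_le_rpow hc.le (h1 l (le_trans (le_max_left _ _) hl) x y)
    (by norm_num)).trans h2

end main

/-- **The N-ality classifies static charges at every temperature.** Let `G` be a compact connected
group with a faithful unitary representation `τ`, `D ≥ 2` and `β > 0`. (1) Let `ρ_1, …, ρ_r` and
`ρ'_1, …, ρ'_r` be unitary representations of dimension `≥ 1` such that `ρ_i` and `ρ'_i` have the same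
N-ality. For every `η > 0` there are `C` and `L` such that `P_ρ'(x) ^ (1 + η) ≤ C ^ n P_ρ(x)` for all
`l ≥ L`, `n ≥ 1` and all sites `x_1, …, x_r`, where `P_ρ(x) = ⟨∏_i χ_{ρ_i}(P_{x_i})⟩ ≥ 0` on the
lattice `(ℤ/l)^D × ℤ/n`. (2) If the centre of `G` acts trivially in all `ρ_i`, then
`P_ρ(x) ≥ C ^ (-n)`. (3) If `ρ` and `ρ'` have the same N-ality, then, at every temperature `1 / n` and
at temperature zero, the string tension of `ρ` is at least (at most) `σ` if and only if the one of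
`ρ'` is, and the Polyakov loops of `ρ` have long range order if and only if those of `ρ'` have it. -/
theorem result (G : Type) [Group G] [TopologicalSpace G] [IsTopologicalGroup G] [CompactSpace G]
    [ConnectedSpace G] [MeasurableSpace G] [BorelSpace G] (μ : Measure G) [IsProbabilityMeasure μ]
    [μ.IsHaarMeasure] (τ : Rep G) (hτ : Function.Injective τ.hom) (D : ℕ) (hD : 2 ≤ D) (β : ℝ)
    (hβ : 0 < β) :
    (∀ (r : ℕ) (ρ ρ' : Fin r → Rep G), (∀ i, 1 ≤ (ρ i).dim) → (∀ i, SameNality (ρ i) (ρ' i)) →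
      Dominates D μ τ β ρ ρ') ∧
    (∀ (r : ℕ) (ρ : Fin r → Rep G), (∀ i, 1 ≤ (ρ i).dim) → (∀ i, TrivialNality (ρ i)) →
      Screened D μ τ β ρ) ∧
    (∀ ρ ρ' : Rep G, 1 ≤ ρ.dim → 1 ≤ ρ'.dim → SameNality ρ ρ' → SamePhases D μ τ β ρ ρ') := by
  have : T2Space G := T2Space.of_injective_continuous hτ τ.cont
  have hM : SecondCountableTopology (Matrix (Fin τ.dim) (Fin τ.dim) ℂ) :=
    inferInstanceAs (SecondCountableTopology (Fin τ.dim → Fin τ.dim → ℂ))
  have h00 : SecondCountableTopology (UU τ.dim) :=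
    TopologicalSpace.Subtype.secondCountableTopology _
  have : SecondCountableTopology G :=
    (τ.cont.isClosedEmbedding hτ).isEmbedding.secondCountableTopology
  have : μ.IsMulRightInvariant := right_inv μ
  refine ⟨fun r ρ ρ' hd hs => dominates μ τ hτ hD hβ ρ ρ' hd hs,
    fun r ρ hd ht => screened μ τ hτ hD hβ ρ hd ht, fun ρ ρ' hρ hρ' hs => ⟨?_, ?_, ?_⟩⟩
  · intro n _ σ
    exact ⟨⟨atLeast_of μ τ hτ hD hβ hρ hs n σ, atLeast_of μ τ hτ hD hβ hρ' hs.symm n σ⟩,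
      ⟨atMost_of μ τ hτ hD hβ hρ' hs n σ, atMost_of μ τ hτ hD hβ hρ hs.symm n σ⟩⟩
  · intro σ
    exact ⟨⟨zero_atLeast_of μ τ hτ hD hβ hρ hs σ, zero_atLeast_of μ τ hτ hD hβ hρ' hs.symm σ⟩,
      ⟨zero_atMost_of μ τ hτ hD hβ hρ' hs σ, zero_atMost_of μ τ hτ hD hβ hρ hs.symm σ⟩⟩
  · intro n _
    exact ⟨deconf_of μ τ hτ hD hβ hρ' hs n, deconf_of μ τ hτ hD hβ hρ hs.symm n⟩

end

end Pool.Agent.Results.MP_7f377f_mp.PolyakovNality
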