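import Mathlib
import Pool.Agent.TH618.YM.Cartan
import Pool.Agent.X134.SC.ConeS
import Pool.Agent.X134.SM.SpecM

/-!
# Lattice Yang-Mills theory: the energy-momentum spectrum in the continuum limit

Wilson's lattice gauge theory with gauge group an arbitrary closed subgroup `G` of `U(N)` on the
lattice of `D ≥ 2` space dimensions and one time dimension, at the inverse coupling `β`, in all
infinite volume limits `ν`. The gauge invariant observables of the time zero have spectral measures:
finite measures of the variables `λ = exp (-a E)` and `z = exp (i a P)`, `E` and `P` being the energy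
and the momentum of the states which the observable creates from the vacuum. The continuum limit is
taken with the lattice spacing `a = 1 / q → 0`, `q` natural, and with `β ≥ a ^ (-K)`, where `K` depends
only on `G` and `D`; the energies and the momenta are measured in the physical units,
`E = -q log λ`, `P = q arg z`.

Let `C` be a closed polygon with edges parallel to the axes and with vertices in `ℤ^D` in the space of
time zero. As `a → 0` the spectral measures of the Wilson loops along `C`, multiplied by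
`β² a^(6 - 2 D)`, converge vaguely, uniformly in the infinite volume limits and in `β ≥ a ^ (-K)`, to
the measure of two free massless gluons in the continuum: to the image of
`(dim G / 2) w(k) w(k') dk dk' / (2 π)^(2 D)` under the map `(k, k') ↦ (|k| + |k'|, k + k')`, where
`w(k) = ‖∮ exp (i k x) dx‖² / (2 |k|)` is given by the line integral over `C`. The Wilson loops along
a fixed lattice loop, which shrinks to a point in the continuum limit, are local operators: their
spectral measures, multiplied by `β² a^(-2 D - 2)`, converge to the same kind of measure with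
`w(k) = |A k|² / (2 |k|)`, `A` being the matrix of the oriented areas of the loop. If `G` is not
discrete, then in the continuum limit the energy-momentum spectrum fills the closed forward cone
`E ≥ |P|` of Minkowski space: the plaquette variable creates states near each point of the cone, with
a probability bounded away from zero in the above normalisation, and for every `Λ` and `ε` all the
points of the cone of energy `E ≤ Λ` have distance less than `ε` from the spectrum if `a` is small
and `β ≥ a ^ (-K)`.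
-/

open MeasureTheory Matrix Filter
open scoped Matrix.Norms.Frobenius Topology ContDiff

namespace Pool.Agent.Results.MP_7f377f_mp.ScalingSpectrum

set_option linter.unusedSectionVars false

noncomputable section

/-- Complex `N × N` matrices. -/
abbrev Mt (N : ℕ) := Matrix (Fin N) (Fin N) ℂ

/-- The unitary group `U(N)`. -/
abbrev UU (N : ℕ) := Matrix.unitaryGroup (Fin N) ℂ

/-- The matrix of an element of a subgroup of `U(N)`. -/
def mt {N : ℕ} {G : Subgroup (UU N)} (g : G) : Mt N := ((g : UU N) : Mt N)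

/-- The dimension of `G`: the dimension of the real space spanned by all matrices `Y` with
`exp (t Y) ∈ G` for all real `t`. -/
def dimG {N : ℕ} (G : Subgroup (UU N)) : ℕ :=
  Module.finrank ℝ (Submodule.span ℝ {Y : Mt N | ∀ t : ℝ, ∃ g : G, mt g = NormedSpace.exp (t • Y)})

/-- Links of the periodic lattice `(ℤ/l)^d`: base point and direction. -/
abbrev Link (d l : ℕ) := (Fin d → ZMod l) × Fin d

/-- Links of the lattice `ℤ^d`: base point and direction. -/
abbrev LinkZ (d : ℕ) := (Fin d → ℤ) × Fin d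

section

variable {N d l : ℕ} {G : Subgroup (UU N)}

/-- The product of the link variables around the plaquette at `x` in the directions `i`, `j`. -/
def plaq (U : Link d l → G) (x : Fin d → ZMod l) (i j : Fin d) : G :=
  U (x, i) * U (x + Pi.single i 1, j) * (U (x + Pi.single j 1, i))⁻¹ * (U (x, j))⁻¹

/-- The Wilson action `∑_p Re tr (1 - U_p)`, the sum over the plaquettes. -/
def action [NeZero l] (U : Link d l → G) : ℝ :=
  ∑ x : Fin d → ZMod l, ∑ i : Fin d, ∑ j : Fin d,
    if i < j then (trace (1 - mt (plaq U x i j))).re else 0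

/-- The periodic extension of a configuration. -/
def per (U : Link d l → G) : LinkZ d → G := fun e => U (fun i => (e.1 i : ZMod l), e.2)

/-- The expectation of `F` in the lattice Yang-Mills theory on `(ℤ/l)^d`, `μ` being the Haar
measure. -/
def expect (l : ℕ) [NeZero l] [MeasurableSpace G] (μ : Measure G) (β : ℝ)
    (F : (LinkZ d → G) → ℝ) : ℝ :=
  (∫ U : Link d l → G, F (per U) * Real.exp (-(β * action U)) ∂(Measure.pi fun _ => μ)) /
    ∫ U : Link d l → G, Real.exp (-(β * action U)) ∂(Measure.pi fun _ => μ)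

/-- `ν` is an infinite volume limit (weak limit along a subsequence) of the theories on the tori of
even side at inverse coupling `β`. -/
structure IsInfVol [MeasurableSpace G] (μ : Measure G) (β : ℝ)
    (ν : Measure (LinkZ d → G)) : Prop where
  prob : IsProbabilityMeasure ν
  lim : ∃ s : ℕ → ℕ, Tendsto s atTop atTop ∧ ∀ F : (LinkZ d → G) → ℝ, Continuous F →
    Tendsto (fun j => expect (2 * (s j + 1)) μ β F) atTop (𝓝 (∫ V, F V ∂ν))

/-- The product of the link variables along the lattice path with the given steps which starts at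
the given point. The step `(i, true)` leads from `x` to `x + e_i`, the step `(i, false)` leads from
`x` to `x - e_i`. -/
def hol (V : LinkZ d → G) : (Fin d → ℤ) → List (Fin d × Bool) → G
  | _, [] => 1
  | x, (i, true) :: p => V (x, i) * hol V (x + Pi.single i 1) p
  | x, (i, false) :: p => (V (x - Pi.single i 1, i))⁻¹ * hol V (x - Pi.single i 1) p

end

/-- The end point of a lattice path. -/
def dest {d : ℕ} : (Fin d → ℤ) → List (Fin d × Bool) → (Fin d → ℤ)
  | x, [] => x
  | x, (i, true) :: p => dest (x + Pi.single i 1) p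
  | x, (i, false) :: p => dest (x - Pi.single i 1) p

/-- The links of a lattice path, with the value `true` for the links which are passed in the
positive direction. -/
def links {d : ℕ} : (Fin d → ℤ) → List (Fin d × Bool) → List (LinkZ d × Bool)
  | _, [] => []
  | x, (i, true) :: p => ((x, i), true) :: links (x + Pi.single i 1) p
  | x, (i, false) :: p => ((x - Pi.single i 1, i), false) :: links (x - Pi.single i 1) p

/-- Closed paths on the lattice `ℤ^d`. -/
structure Loop (d : ℕ) where
  base : Fin d → ℤ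
  steps : List (Fin d × Bool)
  closed : dest base steps = base

/-- The Wilson loop variable `Re tr U_γ`. -/
def wilson {N d : ℕ} {G : Subgroup (UU N)} (γ : Loop d) (V : LinkZ d → G) : ℝ :=
  (trace (mt (hol V γ.base γ.steps))).re

variable {D : ℕ}

/-- The loop lies in the hyperplane of time zero. The time is the last coordinate. -/
def Loop.TimeZero (γ : Loop (D + 1)) : Prop :=
  γ.base (Fin.last D) = 0 ∧ ∀ s ∈ γ.steps, s.1 ≠ Fin.last D

/-- The plaquette at the point `x` and time zero in the space directions `i`, `j`. -/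
def plaquette (x : Fin D → ℤ) (i j : Fin D) : Loop (D + 1) where
  base := Fin.snoc x 0
  steps := [(i.castSucc, true), (j.castSucc, true), (i.castSucc, false), (j.castSucc, false)]
  closed := by simp only [dest]; abel

/-- The observables: the continuous gauge invariant functions of the variables of the space links
at time zero. -/
structure Observable {N : ℕ} {G : Subgroup (UU N)} (F : (LinkZ (D + 1) → G) → ℝ) : Prop where
  continuous : Continuous F
  gauge : ∀ (g : (Fin (D + 1) → ℤ) → G) (V : LinkZ (D + 1) → G),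
    F (fun e => g e.1 * V e * (g (e.1 + Pi.single e.2 1))⁻¹) = F V
  timeZero : ∀ V V' : LinkZ (D + 1) → G,
    (∀ e : LinkZ (D + 1), e.1 (Fin.last D) = 0 → e.2 ≠ Fin.last D → V e = V' e) → F V = F V'

/-- The translate of a configuration by the space vector `x` and the time `t`. -/
def shift {N : ℕ} {G : Subgroup (UU N)} (x : Fin D → ℤ) (t : ℤ) (V : LinkZ (D + 1) → G) :
    LinkZ (D + 1) → G :=
  fun e => V (e.1 + (Fin.snoc x t : Fin (D + 1) → ℤ), e.2)

/-- The covariance of `F` and of its translate. -/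
def cov {N : ℕ} {G : Subgroup (UU N)} [MeasurableSpace G] (ν : Measure (LinkZ (D + 1) → G))
    (F : (LinkZ (D + 1) → G) → ℝ) (t : ℕ) (x : Fin D → ℤ) : ℝ :=
  ∫ V, F V * F (shift x t V) ∂ν - (∫ V, F V ∂ν) * ∫ V, F (shift x t V) ∂ν

/-- `ρ` is the spectral measure of the observable `F`, a measure of the variables `λ = exp (-E)`
and `z = exp (i p)`. -/
structure IsSpectral {N : ℕ} {G : Subgroup (UU N)} [MeasurableSpace G]
    (ν : Measure (LinkZ (D + 1) → G)) (F : (LinkZ (D + 1) → G) → ℝ)
    (ρ : Measure (ℝ × (Fin D → ℂ))) : Prop where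
  finite : IsFiniteMeasure ρ
  support : ρ {q | q.1 ∈ Set.Icc (0 : ℝ) 1 ∧ ∀ i, ‖q.2 i‖ = 1}ᶜ = 0
  moments : ∀ (t : ℕ) (x : Fin D → ℤ), ∫ q, (q.1 : ℂ) ^ t * ∏ i, q.2 i ^ x i ∂ρ = (cov ν F t x : ℂ)

/-- The energy-momentum spectrum (of the orthogonal complement of the vacuum): the union of the
supports of the spectral measures of the observables. -/
def spectrum {N : ℕ} {G : Subgroup (UU N)} [MeasurableSpace G] (ν : Measure (LinkZ (D + 1) → G)) :
    Set (ℝ × (Fin D → ℂ)) :=
  {s | ∃ F : (LinkZ (D + 1) → G) → ℝ, Observable F ∧ ∃ ρ, IsSpectral ν F ρ ∧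
    ∀ O : Set (ℝ × (Fin D → ℂ)), IsOpen O → s ∈ O → 0 < ρ O}

/-- The energy and the momentum `(E, P)` of the point `(λ, z)`, `λ > 0`, of the spectrum in physical
units, `λ = exp (-E / q)`, `z = exp (i P / q)`, the lattice spacing being `1 / q`. -/
def physical (q : ℝ) (s : ℝ × (Fin D → ℂ)) : ℝ × (Fin D → ℝ) :=
  (-(q * Real.log s.1), fun i => q * Complex.arg (s.2 i))

/-- The function `f` of the energy and of the momentum as a function of `(λ, z)`; `λ = 0` is
infinite energy. -/
def inPhysicalUnits (q : ℝ) (f : ℝ × (Fin D → ℝ) → ℝ) (s : ℝ × (Fin D → ℂ)) : ℝ :=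
  if 0 < s.1 then f (physical q s) else 0

/-- The Euclidean norm of a momentum, the energy of a massless particle. -/
def len (k : Fin D → ℝ) : ℝ := Real.sqrt (∑ i, k i ^ 2)

/-- The value of the function `f` in the measure of two free massless particles with `n` colours and
with the one-particle density `w`: the integral of `(n / 2) w(k) w(k') f(|k| + |k'|, k + k')` with
respect to `dk dk' / (2 π)^(2 D)`. -/
def twoGluon (n : ℕ) (w : (Fin D → ℝ) → ℝ) (f : ℝ × (Fin D → ℝ) → ℝ) : ℝ :=
  ((1 / (2 * Real.pi)) ^ D) ^ 2 * ∫ k : (Fin D → ℝ) × (Fin D → ℝ),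
    (n : ℝ) / 2 * (w k.1 * w k.2) * f (len k.1 + len k.2, k.1 + k.2)

lemma dest_append {d : ℕ} (p p' : List (Fin d × Bool)) (x : Fin d → ℤ) :
    dest x (p ++ p') = dest (dest x p) p' := by
  induction p generalizing x with
  | nil => rfl
  | cons s p ih =>
    obtain ⟨i, s⟩ := s
    cases s with
    | true => simp only [List.cons_append, dest, ih]
    | false => simp only [List.cons_append, dest, ih]

lemma dest_rep_true {d : ℕ} (q : ℕ) (i : Fin d) (x : Fin d → ℤ) :
    dest x (List.replicate q (i, true)) = x + (q : ℤ) • Pi.single i 1 := by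
  induction q generalizing x with
  | zero => simp [dest]
  | succ q ih =>
    rw [List.replicate_succ, dest, ih]
    push_cast
    rw [add_smul, one_smul]
    abel

lemma dest_rep_false {d : ℕ} (q : ℕ) (i : Fin d) (x : Fin d → ℤ) :
    dest x (List.replicate q (i, false)) = x - (q : ℤ) • Pi.single i 1 := by
  induction q generalizing x with
  | zero => simp [dest]
  | succ q ih =>
    rw [List.replicate_succ, dest, ih]
    push_cast
    rw [add_smul, one_smul]
    abel

lemma dest_enlarge {d : ℕ} (q : ℕ) (p : List (Fin d × Bool)) (x : Fin d → ℤ) :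
    dest ((q : ℤ) • x) (p.flatMap fun s => List.replicate q s) = (q : ℤ) • dest x p := by
  induction p generalizing x with
  | nil => rfl
  | cons s p ih =>
    obtain ⟨i, s⟩ := s
    rw [List.flatMap_cons, dest_append]
    cases s with
    | true => rw [dest_rep_true, ← smul_add, ih, dest]
    | false => rw [dest_rep_false, ← smul_sub, ih, dest]

/-- The loop enlarged by the factor `q`: every step is repeated `q` times. -/
def enlarge {d : ℕ} (q : ℕ) (γ : Loop d) : Loop d where
  base := (q : ℤ) • γ.base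
  steps := γ.steps.flatMap fun s => List.replicate q s
  closed := by rw [dest_enlarge, γ.closed]

/-- The line integral `∮ exp (i k x) dx_i` over the loop as a curve in the space `ℝ^D`. -/
def lineIntegral (γ : Loop (D + 1)) (k : Fin D → ℝ) (i : Fin D) : ℂ :=
  ((links γ.base γ.steps).map fun e => if e.1.2 = i.castSucc then (if e.2 then (1 : ℂ) else -1) *
    ∫ s in (0 : ℝ)..1, Complex.exp (Complex.I * ((∑ j, k j * e.1.1 j.castSucc + s * k i : ℝ) : ℂ))
    else 0).sum

/-- The density of the one-gluon state created by the Wilson loop of the continuum. -/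
def loopDensity (γ : Loop (D + 1)) (k : Fin D → ℝ) : ℝ :=
  (∑ i, ‖lineIntegral γ k i‖ ^ 2) / (2 * len k)

/-- The oriented area `∮ x_j dx_i` of the loop. -/
def area (γ : Loop (D + 1)) (i j : Fin D) : ℝ :=
  ((links γ.base γ.steps).map fun e => if e.1.2 = i.castSucc then
    (if e.2 then (1 : ℝ) else -1) * (e.1.1 j.castSucc : ℝ) else 0).sum

/-- The density of the one-gluon state created by the local operator which is the limit of the
Wilson loops along the fixed lattice loop. -/
def localDensity (γ : Loop (D + 1)) (k : Fin D → ℝ) : ℝ :=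
  (∑ i, (∑ j, area γ i j * k j) ^ 2) / (2 * len k)

/-- The spectral measures of the Wilson loops of the continuum: the loops `γ` at time zero are
enlarged by the factor `q`, that is the curve `γ` is kept and the lattice spacing is `1 / q`. For
large `q` and `β ≥ q ^ K` the spectral measure multiplied by `β² q^(2 D - 6)` is close to the measure
of two free gluons, on every continuous function `f` with compact support of the energy and the
momentum in physical units. -/
def LoopLimit {N : ℕ} {G : Subgroup (UU N)} [MeasurableSpace G] (D : ℕ) (μ : Measure G) (K : ℕ) :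
    Prop :=
  ∀ γ : Loop (D + 1), γ.TimeZero → ∀ f : ℝ × (Fin D → ℝ) → ℝ, Continuous f →
    HasCompactSupport f → ∀ ε : ℝ, 0 < ε → ∃ q₀ : ℕ, 1 ≤ q₀ ∧ ∀ q : ℕ, q₀ ≤ q →
      ∀ β : ℝ, (q : ℝ) ^ K ≤ β → ∀ ν : Measure (LinkZ (D + 1) → G), IsInfVol μ β ν →
        (∃ ρ, IsSpectral ν (wilson (enlarge q γ)) ρ) ∧
        ∀ ρ, IsSpectral ν (wilson (enlarge q γ)) ρ →
          |β ^ 2 * ((q : ℝ) ^ (2 * D) / (q : ℝ) ^ 6) * ∫ s, inPhysicalUnits q f s ∂ρ -
            twoGluon (dimG G) (loopDensity γ) f| ≤ ε

/-- The spectral measures of the local operators: the same for the Wilson loops along the fixed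
lattice loops `γ` at time zero, the spectral measures being multiplied by `β² q^(2 D + 2)`. -/
def LocalLimit {N : ℕ} {G : Subgroup (UU N)} [MeasurableSpace G] (D : ℕ) (μ : Measure G) (K : ℕ) :
    Prop :=
  ∀ γ : Loop (D + 1), γ.TimeZero → ∀ f : ℝ × (Fin D → ℝ) → ℝ, Continuous f →
    HasCompactSupport f → ∀ ε : ℝ, 0 < ε → ∃ q₀ : ℕ, 1 ≤ q₀ ∧ ∀ q : ℕ, q₀ ≤ q →
      ∀ β : ℝ, (q : ℝ) ^ K ≤ β → ∀ ν : Measure (LinkZ (D + 1) → G), IsInfVol μ β ν →
        (∃ ρ, IsSpectral ν (wilson γ) ρ) ∧
        ∀ ρ, IsSpectral ν (wilson γ) ρ →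
          |β ^ 2 * (q : ℝ) ^ (2 * D + 2) * ∫ s, inPhysicalUnits q f s ∂ρ -
            twoGluon (dimG G) (localDensity γ) f| ≤ ε

/-- The plaquette variable creates states near every point `(E, P)`, `E ≥ |P|`, of the forward cone:
the spectral measure, multiplied by `β² q^(2 D + 2)`, of each neighbourhood `O` of the point is
bounded away from zero. -/
def ConeStates {N : ℕ} {G : Subgroup (UU N)} [MeasurableSpace G] (D : ℕ) (μ : Measure G) (K : ℕ) :
    Prop :=
  ∀ i j : Fin D, i ≠ j → ∀ (E : ℝ) (P : Fin D → ℝ), len P ≤ E →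
    ∀ O : Set (ℝ × (Fin D → ℝ)), IsOpen O → (E, P) ∈ O → ∃ (c : ℝ) (q₀ : ℕ), 0 < c ∧ 1 ≤ q₀ ∧
      ∀ q : ℕ, q₀ ≤ q → ∀ β : ℝ, (q : ℝ) ^ K ≤ β → ∀ ν : Measure (LinkZ (D + 1) → G),
        IsInfVol μ β ν → ∀ ρ, IsSpectral ν (wilson (plaquette 0 i j)) ρ →
          c ≤ β ^ 2 * (q : ℝ) ^ (2 * D + 2) * ρ.real {s | 0 < s.1 ∧ physical q s ∈ O}

/-- The energy-momentum spectrum in physical units becomes dense in the forward cone in the
continuum limit. -/
def ConeDense {N : ℕ} {G : Subgroup (UU N)} [MeasurableSpace G] (D : ℕ) (μ : Measure G) (K : ℕ) :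
    Prop :=
  ∀ Λ ε : ℝ, 0 < ε → ∃ q₀ : ℕ, 1 ≤ q₀ ∧ ∀ q : ℕ, q₀ ≤ q → ∀ β : ℝ, (q : ℝ) ^ K ≤ β →
    ∀ ν : Measure (LinkZ (D + 1) → G), IsInfVol μ β ν → ∀ (E : ℝ) (P : Fin D → ℝ), len P ≤ E →
      E ≤ Λ → ∃ s ∈ spectrum ν, 0 < s.1 ∧ dist (physical q s) (E, P) < ε

open Pool.Agent.H906R3 Pool.Agent.W793 Pool.Agent.TH618 Pool.Agent.X134

namespace W

export Pool.Agent.Results.MP_7f377f_mp.WilsonLoopsWeakCoupling (Loop wilson IsInfVol links LieBasis)

end W

variable {N n d l : ℕ} {G : Subgroup (UU N)}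

/-! ### translation -/

lemma dim_eq (B : YM.Frame G n) : dimG G = n := by
  have hli : LinearIndependent ℝ B.X := by
    rw [Fintype.linearIndependent_iff]
    intro c hc a
    have h1 : (trace ((B.X a)ᴴ * ∑ b, c b • B.X b)).re = c a := by
      rw [Finset.mul_sum, trace_sum, Complex.re_sum]
      have h2 : ∀ b, (trace ((B.X a)ᴴ * (c b • B.X b))).re = if a = b then c b else 0 := by
        intro b
        rw [Matrix.mul_smul, trace_smul, Complex.smul_re, B.orth, smul_eq_mul, mul_ite, mul_one,
          mul_zero]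
      simp only [h2]
      rw [Finset.sum_ite_eq Finset.univ a, if_pos (Finset.mem_univ a)]
    rw [hc, mul_zero, trace_zero] at h1
    exact h1.symm
  have hspan : Submodule.span ℝ {Y : Mt N | ∀ t : ℝ, ∃ g : G, mt g = NormedSpace.exp (t • Y)} =
      Submodule.span ℝ (Set.range B.X) := by
    refine le_antisymm (Submodule.span_le.2 fun Y hY => B.full Y hY) (Submodule.span_le.2 ?_)
    rintro _ ⟨a, rfl⟩
    exact Submodule.subset_span fun t => ⟨B.ex a t, B.ex_eq a t⟩
  unfold dimG
  rw [hspan, finrank_span_eq_card hli, Fintype.card_fin]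

lemma hol_eq (V : LinkZ d → G) (p : List (Fin d × Bool)) (x : Fin d → ℤ) :
    hol V x p = WilsonLoopsWeakCoupling.hol V x p := by
  induction p generalizing x with
  | nil => rfl
  | cons s p ih =>
    obtain ⟨i, s⟩ := s
    cases s with
    | true => simp only [hol, WilsonLoopsWeakCoupling.hol, ih]
    | false => simp only [hol, WilsonLoopsWeakCoupling.hol, ih]

lemma dest_eq (p : List (Fin d × Bool)) (x : Fin d → ℤ) :
    dest x p = WilsonLoopsWeakCoupling.dest x p := by
  induction p generalizing x with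
  | nil => rfl
  | cons s p ih =>
    obtain ⟨i, s⟩ := s
    cases s with
    | true => simp only [dest, WilsonLoopsWeakCoupling.dest, ih]
    | false => simp only [dest, WilsonLoopsWeakCoupling.dest, ih]

lemma links_eq (p : List (Fin d × Bool)) (x : Fin d → ℤ) :
    links x p = WilsonLoopsWeakCoupling.links x p := by
  induction p generalizing x with
  | nil => rfl
  | cons s p ih =>
    obtain ⟨i, s⟩ := s
    cases s with
    | true => simp only [links, WilsonLoopsWeakCoupling.links, ih]
    | false => simp only [links, WilsonLoopsWeakCoupling.links, ih]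

/-- the loop in the form used by the helper files -/
def toW (γ : Loop d) : W.Loop d := ⟨γ.base, γ.steps, by rw [← dest_eq, γ.closed]⟩

lemma wilson_eq (γ : Loop d) : (wilson γ : (LinkZ d → G) → ℝ) = W.wilson (toW γ) := by
  funext V
  unfold wilson
  rw [hol_eq]
  rfl

/-- the basis in the form used by the helper files -/
def toB (B : YM.Frame G n) : W.LieBasis G n where
  X := B.X
  ex := B.ex
  ex_eq := B.ex_eq
  orth := B.orth
  full := B.full

lemma toW_plaquette (i j : Fin D) : toW (plaquette 0 i j) = SM.plq i j := by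
  refine SM.loop_ext ?_ rfl
  show (Fin.snoc (0 : Fin D → ℤ) 0 : Fin (D + 1) → ℤ) = 0
  exact SM.ptz_zero

lemma observable_TZ {F : (LinkZ (D + 1) → G) → ℝ} (h : Observable F) : SM.TZ F :=
  ⟨h.continuous, h.gauge, h.timeZero⟩

lemma TZ_observable {F : (LinkZ (D + 1) → G) → ℝ} (h : SM.TZ F) : Observable F :=
  ⟨h.cont, h.inv, h.tz⟩

section

variable [MeasurableSpace G] [BorelSpace G] (μ : Measure G) [IsProbabilityMeasure μ]
  [μ.IsHaarMeasure]

lemma infVol_W {β : ℝ} {ν : Measure (LinkZ d → G)} (h : IsInfVol μ β ν) : W.IsInfVol μ β ν :=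
  ⟨h.prob, h.lim⟩

lemma infVol_of {β : ℝ} {ν : Measure (LinkZ d → G)} (h : W.IsInfVol μ β ν) : IsInfVol μ β ν :=
  ⟨h.prob, h.lim⟩

variable [CompactSpace G] [SecondCountableTopology G]

lemma cov_eq (B : YM.Frame G n) {β : ℝ} {ν : Measure (LinkZ (D + 1) → G)} (hν : IsInfVol μ β ν)
    {F : (LinkZ (D + 1) → G) → ℝ} (hF : Continuous F) (t : ℕ) (x : Fin D → ℤ) :
    cov ν F t x = SM.cvZ ν F (SM.ptz x t) := by
  have := WilsonLoopsWeakCoupling.right_inv μ
  have := WilsonLoopsWeakCoupling.inv_inv' μ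
  have h1 : ∫ V, F (shift x t V) ∂ν = ∫ V, F V ∂ν :=
    SM.int_sh μ hF (SM.infV_of μ (toB B) (infVol_W μ hν)) (SM.ptz x t)
  unfold cov SM.cvZ
  rw [h1, sq]
  rfl

lemma spectral_iff (B : YM.Frame G n) {β : ℝ} {ν : Measure (LinkZ (D + 1) → G)}
    (hν : IsInfVol μ β ν) {F : (LinkZ (D + 1) → G) → ℝ} (hF : Continuous F)
    (ρ : Measure (ℝ × (Fin D → ℂ))) : IsSpectral ν F ρ ↔ SM.IsSp ν F ρ := by
  constructor
  · rintro ⟨h1, h2, h3⟩
    refine ⟨h1, h2, fun t x => ?_⟩
    rw [← cov_eq μ B hν hF]
    exact h3 t x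
  · rintro ⟨h1, h2, h3⟩
    refine ⟨h1, h2, fun t x => ?_⟩
    rw [cov_eq μ B hν hF]
    exact h3 t x

end

/-! ### the densities -/

lemma links_dir (p : List (Fin (D + 1) × Bool)) (hp : ∀ s ∈ p, s.1 ≠ Fin.last D)
    (x : Fin (D + 1) → ℤ) : ∀ e ∈ links x p, e.1.2 ≠ Fin.last D := by
  induction p generalizing x with
  | nil => simp [links]
  | cons s p ih =>
    obtain ⟨i, s⟩ := s
    have hi : i ≠ Fin.last D := hp (i, s) List.mem_cons_self
    have hp' : ∀ s ∈ p, s.1 ≠ Fin.last D := fun s hs => hp s (List.mem_cons_of_mem _ hs)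
    cases s with
    | true =>
      intro e he
      simp only [links, List.mem_cons] at he
      rcases he with rfl | he
      · exact hi
      · exact ih hp' _ e he
    | false =>
      intro e he
      simp only [links, List.mem_cons] at he
      rcases he with rfl | he
      · exact hi
      · exact ih hp' _ e he

lemma dir_ne {γ : Loop (D + 1)} (hγ : γ.TimeZero) (e : Fin (SM.lkL (toW γ)).length) :
    SM.dirL (toW γ) e ≠ Fin.last D := by
  have h1 := links_dir γ.steps hγ.2 γ.base
  rw [links_eq] at h1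
  exact h1 _ (List.get_mem (SM.lkL (toW γ)) e)

lemma area_eq (γ : Loop (D + 1)) (i j : Fin D) : area γ i j =
    ∑ e, if SM.dirL (toW γ) e = i.castSucc then SM.sgL (toW γ) e * (SM.posL (toW γ) e j : ℝ)
      else 0 := by
  unfold area
  rw [links_eq, SM.sum_get]
  rfl

lemma localDensity_eq {γ : Loop (D + 1)} (hγ : γ.TimeZero) : localDensity γ =
    SC.WW (SM.sgL (toW γ)) (SM.posL (toW γ)) (SM.dirL (toW γ)) := by
  funext k
  unfold localDensity SC.WW SC.CC
  rw [Fin.sum_univ_castSucc]
  have h1 : (∑ e, if SM.dirL (toW γ) e = Fin.last D then SM.sgL (toW γ) e *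
      SM.ph k (SM.posL (toW γ) e) else 0) = 0 :=
    Finset.sum_eq_zero fun e _ => if_neg (dir_ne hγ e)
  have h2 : ∀ i : Fin D, ∑ j, area γ i j * k j = ∑ e, if SM.dirL (toW γ) e = i.castSucc then
      SM.sgL (toW γ) e * SM.ph k (SM.posL (toW γ) e) else 0 := by
    intro i
    simp only [area_eq, Finset.sum_mul]
    rw [Finset.sum_comm]
    refine Finset.sum_congr rfl fun e _ => ?_
    split_ifs
    · unfold SM.ph
      rw [Finset.mul_sum]
      exact Finset.sum_congr rfl fun j _ => by ring
    · simp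
  simp only [h2]
  rw [h1, zero_pow two_ne_zero, add_zero]
  rfl

/-- the integral over an edge -/
lemma edge_norm (θ : ℝ) : ‖∫ s in (0 : ℝ)..1, Complex.exp (Complex.I * ((s * θ : ℝ) : ℂ))‖ ^ 2 =
    Real.sinc (θ / 2) ^ 2 := by
  rcases eq_or_ne θ 0 with rfl | hθ
  · simp
  · have hθ' : (θ : ℂ) ≠ 0 := by exact_mod_cast hθ
    have hc : Complex.I * (θ : ℂ) ≠ 0 := mul_ne_zero Complex.I_ne_zero hθ'
    have h1 : ∀ s : ℝ, Complex.exp (Complex.I * ((s * θ : ℝ) : ℂ)) =
        Complex.exp (Complex.I * (θ : ℂ) * s) := by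
      intro s
      congr 1
      push_cast
      ring
    simp only [h1]
    rw [integral_exp_mul_complex hc, norm_div]
    simp only [Complex.ofReal_one, mul_one, Complex.ofReal_zero, mul_zero, Complex.exp_zero]
    rw [Complex.norm_exp_I_mul_ofReal_sub_one, norm_mul Complex.I, Complex.norm_I, one_mul,
      Complex.norm_real, Real.norm_eq_abs, Real.norm_eq_abs, Real.sinc_of_ne_zero (by simpa using hθ),
      div_pow, sq_abs, sq_abs]
    field_simp

lemma lineIntegral_eq (γ : Loop (D + 1)) (k : Fin D → ℝ) (i : Fin D) : lineIntegral γ k i =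
    SM.cur (SM.sgL (toW γ)) (SM.posL (toW γ)) (SM.dirL (toW γ)) k i.castSucc *
      ∫ s in (0 : ℝ)..1, Complex.exp (Complex.I * ((s * k i : ℝ) : ℂ)) := by
  unfold lineIntegral SM.cur
  rw [links_eq, SC.sum_getC, Finset.sum_mul]
  refine Finset.sum_congr rfl fun e _ => ?_
  have hs : ((SM.sgL (toW γ) e : ℝ) : ℂ) =
      if ((SM.lkL (toW γ)).get e).2 then (1 : ℂ) else -1 := by
    unfold SM.sgL
    split_ifs <;> simp
  rw [hs]
  have h1 : ∀ A : ℝ, ∫ s in (0 : ℝ)..1, Complex.exp (Complex.I * ((A + s * k i : ℝ) : ℂ)) =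
      Complex.exp (Complex.I * (A : ℝ)) *
        ∫ s in (0 : ℝ)..1, Complex.exp (Complex.I * ((s * k i : ℝ) : ℂ)) := by
    intro A
    rw [← intervalIntegral.integral_const_mul]
    refine intervalIntegral.integral_congr fun s _ => ?_
    show Complex.exp (Complex.I * ((A + s * k i : ℝ) : ℂ)) = Complex.exp (Complex.I * (A : ℝ)) *
      Complex.exp (Complex.I * ((s * k i : ℝ) : ℂ))
    rw [← Complex.exp_add]
    congr 1
    push_cast
    ring
  rw [h1]
  by_cases h : SM.dirL (toW γ) e = i.castSucc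
  · rw [if_pos h, mul_assoc]
    exact if_pos h
  · rw [if_neg h, zero_mul]
    exact if_neg h

lemma loopDensity_eq {γ : Loop (D + 1)} (hγ : γ.TimeZero) : loopDensity γ = SC.WM (toW γ) := by
  funext k
  unfold loopDensity SC.WM
  rw [Fin.sum_univ_castSucc]
  have h1 : SM.cur (SM.sgL (toW γ)) (SM.posL (toW γ)) (SM.dirL (toW γ)) k (Fin.last D) = 0 :=
    Finset.sum_eq_zero fun e _ => if_neg (dir_ne hγ e)
  rw [h1, norm_zero, zero_pow two_ne_zero, zero_mul, add_zero]
  have h2 : ∀ i : Fin D, SC.kx k i.castSucc = k i := by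
    intro i
    unfold SC.kx
    rw [Fin.lastCases_castSucc]
  simp only [lineIntegral_eq, norm_mul, mul_pow, edge_norm, h2]
  rfl

lemma toW_enlarge (q : ℕ) (γ : Loop d) : toW (enlarge q γ) = SC.blow q (toW γ) := rfl

/-- Lattice Yang-Mills theory at weak coupling: the energy-momentum spectrum in the continuum
limit. -/
theorem result {N D : ℕ} (hD : 2 ≤ D) (G : Subgroup (UU N)) (hG : IsClosed (G : Set (UU N)))
    [MeasurableSpace G] [BorelSpace G] (μ : Measure G) [IsProbabilityMeasure μ] [μ.IsHaarMeasure] :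
    (∀ β : ℝ, ∃ ν : Measure (LinkZ (D + 1) → G), IsInfVol μ β ν) ∧
    ∃ K : ℕ, LoopLimit D μ K ∧ LocalLimit D μ K ∧
      (0 < dimG G → ConeStates D μ K ∧ ConeDense D μ K) := by
  have hcomp : CompactSpace G := SM.compG hG
  have hsec : SecondCountableTopology G := SM.secG
  have hri := WilsonLoopsWeakCoupling.right_inv μ
  have hii := WilsonLoopsWeakCoupling.inv_inv' μ
  obtain ⟨n, ⟨B⟩⟩ := YM.exists_frame hG
  have hflat : ∀ γ : Loop (D + 1), γ.TimeZero → SM.Flat (toW γ) := fun γ hγ => ⟨hγ.1, hγ.2⟩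
  have hobs : ∀ γ : Loop (D + 1), γ.TimeZero →
      Observable (wilson γ : (LinkZ (D + 1) → G) → ℝ) := by
    intro γ hγ
    rw [wilson_eq]
    exact TZ_observable (SM.wilson_TZ (hflat γ hγ))
  have henl : ∀ (q : ℕ) (γ : Loop (D + 1)), γ.TimeZero → (enlarge q γ).TimeZero := by
    intro q γ hγ
    have h := SC.blow_flat (hflat γ hγ) q
    exact ⟨h.base, h.steps⟩
  have hpl : ∀ (i j : Fin D), (plaquette 0 i j).TimeZero := by
    intro i j
    have h : ∀ k : Fin D, k.castSucc ≠ Fin.last D := fun k => (Fin.castSucc_lt_last k).ne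
    refine ⟨by show (Fin.snoc 0 0 : Fin (D + 1) → ℤ) (Fin.last D) = 0; simp, fun s hs => ?_⟩
    simp only [plaquette, List.mem_cons, List.not_mem_nil, or_false] at hs
    rcases hs with rfl | rfl | rfl | rfl <;> exact h _
  have hex : ∀ β : ℝ, 0 ≤ β → ∀ ν : Measure (LinkZ (D + 1) → G), IsInfVol μ β ν →
      ∀ F : (LinkZ (D + 1) → G) → ℝ, Observable F → ∃ ρ, IsSpectral ν F ρ := by
    intro β hβ ν hν F hF
    obtain ⟨ρ, hρ⟩ := SM.sp_exists μ (observable_TZ hF) hβ (SM.infV_of μ (toB B) (infVol_W μ hν))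
    exact ⟨ρ, (spectral_iff μ B hν hF.continuous ρ).2 hρ⟩
  have hpos : ∀ (q : ℕ) (K : ℕ) (β : ℝ), (q : ℝ) ^ K ≤ β → 0 ≤ β := fun q K β h =>
    (by positivity : (0 : ℝ) ≤ (q : ℝ) ^ K).trans h
  obtain ⟨K, hfix, hblow⟩ := SC.micro μ hD hG (toB B)
  refine ⟨fun β => ?_, K, fun γ hγ f hf hfs ε hε => ?_, fun γ hγ f hf hfs ε hε => ?_, fun hn =>
    ⟨fun i j hij E P hP O hO hx => ?_, fun Λ ε hε => ?_⟩⟩
  · obtain ⟨ν, hν⟩ := WilsonLoopsWeakCoupling.exists_infVol (d := D + 1) μ (toB B) β
    exact ⟨ν, infVol_of μ hν⟩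
  · obtain ⟨q₀, hq₀, h⟩ := hblow (toW γ) (hflat γ hγ) f hf hfs ε hε
    refine ⟨q₀, hq₀, fun q hq β hβ ν hν => ⟨hex β (hpos q K β hβ) ν hν _
      (hobs _ (henl q γ hγ)), fun ρ hρ => ?_⟩⟩
    rw [dim_eq B, loopDensity_eq hγ]
    refine h q hq β hβ ν (infVol_W μ hν) ρ ?_
    rw [← toW_enlarge, ← wilson_eq]
    exact (spectral_iff μ B hν (hobs _ (henl q γ hγ)).continuous ρ).1 hρ
  · obtain ⟨q₀, hq₀, h⟩ := hfix (toW γ) (hflat γ hγ) f hf hfs ε hε
    refine ⟨q₀, hq₀, fun q hq β hβ ν hν => ⟨hex β (hpos q K β hβ) ν hν _ (hobs γ hγ),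
      fun ρ hρ => ?_⟩⟩
    rw [dim_eq B, localDensity_eq hγ]
    refine h q hq β hβ ν (infVol_W μ hν) ρ ?_
    rw [← wilson_eq]
    exact (spectral_iff μ B hν (hobs γ hγ).continuous ρ).1 hρ
  · rw [dim_eq B] at hn
    obtain ⟨c, q₀, hc, hq₀, h⟩ := SC.cone_scal μ hD hn hfix hij hP hO hx
    refine ⟨c, q₀, hc, hq₀, fun q hq β hβ ν hν ρ hρ => ?_⟩
    refine h q hq β hβ ν (infVol_W μ hν) ρ ?_
    rw [← toW_plaquette, ← wilson_eq]
    exact (spectral_iff μ B hν (hobs _ (hpl i j)).continuous ρ).1 hρ
  · rw [dim_eq B] at hn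
    have hij : (⟨0, by omega⟩ : Fin D) ≠ ⟨1, by omega⟩ := by
      intro h
      simp [Fin.ext_iff] at h
    obtain ⟨q₀, hq₀, h⟩ := SC.cone_unif μ hD hn hfix hij Λ hε
    refine ⟨q₀, hq₀, fun q hq β hβ ν hν E P hP hE => ?_⟩
    have hO := hobs _ (hpl ⟨0, by omega⟩ ⟨1, by omega⟩)
    obtain ⟨ρ, hρ⟩ := hex β (hpos q K β hβ) ν hν _ hO
    obtain ⟨s, hs, hs', hs''⟩ := h q hq β hβ ν (infVol_W μ hν) ρ (by
      rw [← toW_plaquette, ← wilson_eq]
      exact (spectral_iff μ B hν hO.continuous ρ).1 hρ) E P hP hE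
    exact ⟨s, ⟨_, hO, ρ, hρ, hs''⟩, hs, hs'⟩

end

end Pool.Agent.Results.MP_7f377f_mp.ScalingSpectrum
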