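import Mathlib
import Pool.Agent.X168.NA.Fin
import Pool.Agent.X168.NA.Frame

/-!
# Lattice Yang-Mills theory: the string tension depends on the N-ality only

Space is the periodic cubic lattice `(ℤ/l)^D` with `D ≥ 2`, the gauge group `G` is a connected closed
subgroup of `U(N)`, and the Hamiltonian is the one of Kogut and Susskind,
`H = - (g ^ 2 / 2) Δ + g ^ (-2) ∑_p Re tr (1 - U_p)`. The static potential `V_ρ(x, y)` is the
difference of the lowest energies with and without a static source in the unitary representation `ρ`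
at `x` and the corresponding antisource at `y`. For every coupling `g > 0` and any two
representations `ρ`, `ρ'` with the same N-ality (the centre of `G` acts by the same scalars)
`|V_ρ(x, y) - V_ρ'(x, y)| ≤ C (1 + min (V_ρ(x, y), V_ρ'(x, y))) ^ (3/4)`,
uniformly in the volume and in `x`, `y`. Hence `ρ` and `ρ'` have the same string tension, and the
potential of the sources of trivial N-ality is bounded.
-/

open MeasureTheory Matrix
open scoped ContDiff Matrix.Norms.Frobenius

namespace Pool.Agent.Results.MP_7f377f_mp.StringTensionNality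

set_option linter.unusedSectionVars false

noncomputable section

/-- Complex `N × N` matrices. -/
abbrev Mt (N : ℕ) := Matrix (Fin N) (Fin N) ℂ

/-- The unitary group `U(N)`. -/
abbrev UU (N : ℕ) := Matrix.unitaryGroup (Fin N) ℂ

/-- The matrix of an element of a subgroup of `U(N)`. -/
def mt {N : ℕ} {G : Subgroup (UU N)} (g : G) : Mt N := ((g : UU N) : Mt N)

/-- Links of the periodic lattice `(ℤ/l)^D`: base point and direction. -/
abbrev Link (D l : ℕ) := (Fin D → ZMod l) × Fin D

/-- Unit vector of the lattice in direction `i`. -/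
def unitv {D l : ℕ} (i : Fin D) : Fin D → ZMod l := Pi.single i 1

/-- An orthonormal basis `X` of the Lie algebra of `G`, that is of the real space of all matrices `Y`
with `exp (t Y) ∈ G` for all real `t`, with the scalar product `Re tr (Y* Z)`; `ex a t` is the
element `exp (t X_a)` of `G`. -/
structure LieBasis {N : ℕ} (G : Subgroup (UU N)) (n : ℕ) where
  X : Fin n → Mt N
  ex : Fin n → ℝ → G
  ex_eq : ∀ a t, mt (ex a t) = NormedSpace.exp (t • X a)
  orth : ∀ a b, (trace ((X a)ᴴ * X b)).re = if a = b then 1 else 0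
  full : ∀ Y : Mt N, (∀ t : ℝ, ∃ g : G, mt g = NormedSpace.exp (t • Y)) →
    Y ∈ Submodule.span ℝ (Set.range X)

/-- A continuous unitary representation of `G` of dimension `p`. -/
structure Rep {N : ℕ} (G : Subgroup (UU N)) (p : ℕ) where
  hom : G →* UU p
  cont : Continuous hom

/-- The matrix of `u` in the representation `ρ`. -/
def Rep.mat {N p : ℕ} {G : Subgroup (UU N)} (ρ : Rep G p) (u : G) : Mt p := ((ρ.hom u : UU p) : Mt p)

section

variable {N n D l p q : ℕ} {G : Subgroup (UU N)} {V : Type} [NormedAddCommGroup V]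
  [NormedSpace ℝ V]

/-- The product of the link variables around the plaquette at `x` in the directions `i`, `j`. -/
def plaq (U : Link D l → G) (x : Fin D → ZMod l) (i j : Fin D) : G :=
  U (x, i) * U (x + unitv i, j) * (U (x + unitv j, i))⁻¹ * (U (x, j))⁻¹

/-- The magnetic energy `∑_p Re tr (1 - U_p)`, the sum over the plaquettes. -/
def magnetic [NeZero l] (U : Link D l → G) : ℝ :=
  ∑ x : Fin D → ZMod l, ∑ i : Fin D, ∑ j : Fin D,
    if i < j then (trace (1 - mt (plaq U x i j))).re else 0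

/-- Continuously differentiable functions of the link variables: restrictions of continuously
differentiable functions of the matrices. -/
def IsC1 [NeZero l] (F : (Link D l → G) → V) : Prop :=
  ∃ f : (Link D l → Mt N) → V, ContDiff ℝ 1 f ∧ ∀ U, F U = f fun e => mt (U e)

/-- The derivative of `F` at `U` when the variable of the link `e` moves as `exp (t X_a) U_e`. -/
def dlink (B : LieBasis G n) (e : Link D l) (a : Fin n) (F : (Link D l → G) → V)
    (U : Link D l → G) : V :=
  deriv (fun t => F (Function.update U e (B.ex a t * U e))) 0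

/-- The energy `⟨F, H F⟩` of a function `F` with values in `ℂ` or in the matrices (with the norm
`|M| ^ 2 = ∑ |M i j| ^ 2`), as a quadratic form, `μ` being the Haar measure:
`(g ^ 2 / 2) ∑_{e, a} ∫ |D_{e, a} F| ^ 2 + g ^ (-2) ∫ (∑_p Re tr (1 - U_p)) |F| ^ 2`. -/
def energy [NeZero l] [MeasurableSpace G] (B : LieBasis G n) (μ : Measure G) (g : ℝ)
    (F : (Link D l → G) → V) : ℝ :=
  g ^ 2 / 2 * (∑ e : Link D l, ∑ a : Fin n,
    ∫ U, ‖dlink B e a F U‖ ^ 2 ∂(Measure.pi fun _ : Link D l => μ)) +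
  1 / g ^ 2 * ∫ U, magnetic U * ‖F U‖ ^ 2 ∂(Measure.pi fun _ : Link D l => μ)

/-- Gauge transformation of the link variables. -/
def gauge (γ : (Fin D → ZMod l) → G) (U : Link D l → G) : Link D l → G :=
  fun e => γ e.1 * U e * (γ (e.1 + unitv e.2))⁻¹

/-- Gauge invariant functions. -/
def Invariant (F : (Link D l → G) → ℂ) : Prop := ∀ γ U, F (gauge γ U) = F U

/-- The transformation law of the states with a static source at `x` and an antisource at `y` in the
representation `ρ`: `F (U ^ γ) = ρ(γ x) F(U) ρ(γ y)*` for all gauge transformations `γ`. -/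
def Covariant (ρ : Rep G p) (x y : Fin D → ZMod l) (F : (Link D l → G) → Mt p) : Prop :=
  ∀ γ U, F (gauge γ U) = ρ.mat (γ x) * F U * (ρ.mat (γ y))ᴴ

/-- A continuously differentiable function with `∫ |F| ^ 2 = 1`. -/
structure IsState [NeZero l] [MeasurableSpace G] (μ : Measure G)
    (F : (Link D l → G) → V) : Prop where
  smooth : IsC1 F
  norm : ∫ U, ‖F U‖ ^ 2 ∂(Measure.pi fun _ : Link D l => μ) = 1

/-- The ground state energy: the infimum of the energies of the gauge invariant states. -/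
def vacuumEnergy (D l : ℕ) [NeZero l] [MeasurableSpace G] (B : LieBasis G n) (μ : Measure G)
    (g : ℝ) : ℝ :=
  sInf {E : ℝ | ∃ F : (Link D l → G) → ℂ, IsState μ F ∧ Invariant F ∧ energy B μ g F = E}

/-- The lowest energy in the presence of a static source at `x` and an antisource at `y` in the
representation `ρ`. -/
def sourceEnergy [NeZero l] [MeasurableSpace G] (B : LieBasis G n) (μ : Measure G) (g : ℝ)
    (ρ : Rep G p) (x y : Fin D → ZMod l) : ℝ :=
  sInf {E : ℝ | ∃ F : (Link D l → G) → Mt p, IsState μ F ∧ Covariant ρ x y F ∧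
    energy B μ g F = E}

/-- The static potential `V_ρ(x, y)` of the representation `ρ`. -/
def potential [NeZero l] [MeasurableSpace G] (B : LieBasis G n) (μ : Measure G) (g : ℝ)
    (ρ : Rep G p) (x y : Fin D → ZMod l) : ℝ :=
  sourceEnergy B μ g ρ x y - vacuumEnergy D l B μ g

/-- The sources in the representation `ρ` have the string tension `σ` in `D` space dimensions: for
every `ε > 0`, all large `R` and all large `l` (depending on `R`) the static potential between `x`
and `x + R e_i` differs from `σ R` by at most `ε R`. -/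
def HasStringTension (D : ℕ) [MeasurableSpace G] (B : LieBasis G n) (μ : Measure G) (g : ℝ)
    (ρ : Rep G p) (σ : ℝ) : Prop :=
  ∀ ε : ℝ, 0 < ε → ∃ R₀ : ℕ, ∀ R : ℕ, R₀ ≤ R → ∃ l₀ : ℕ, ∀ (l : ℕ) [NeZero l], l₀ ≤ l →
    ∀ (x : Fin D → ZMod l) (i : Fin D),
      |potential B μ g ρ x (x + Pi.single i (R : ZMod l)) - σ * R| ≤ ε * R

/-- The potential is nonnegative and grows at most linearly, uniformly in the volume. -/
def AtMostLinear (D : ℕ) [MeasurableSpace G] (B : LieBasis G n) (μ : Measure G) (g : ℝ)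
    (ρ : Rep G p) : Prop :=
  ∃ C : ℝ, ∀ (l : ℕ) [NeZero l], ∀ x y : Fin D → ZMod l,
    0 ≤ potential B μ g ρ x y ∧ potential B μ g ρ x y ≤ C * (1 + ∑ i, ((y i - x i).val : ℝ))

/-- The potential is bounded, uniformly in the volume. -/
def Screened (D : ℕ) [MeasurableSpace G] (B : LieBasis G n) (μ : Measure G) (g : ℝ)
    (ρ : Rep G p) : Prop :=
  ∃ (C : ℝ) (L : ℕ), ∀ (l : ℕ) [NeZero l], L ≤ l → ∀ x y : Fin D → ZMod l,
    potential B μ g ρ x y ≤ C

/-- `|v - v'| ≤ C (1 + min (v, v')) ^ (3/4)`. -/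
def Near (C v v' : ℝ) : Prop := |v - v'| ≤ C * (1 + min v v') ^ (3 / 4 : ℝ)

/-- `|V_ρ(x, y) - V_ρ'(x, y)| ≤ C (1 + min (V_ρ(x, y), V_ρ'(x, y))) ^ (3/4)`, uniformly in the
volume. -/
def Close (D : ℕ) [MeasurableSpace G] (B : LieBasis G n) (μ : Measure G) (g : ℝ)
    (ρ : Rep G p) (ρ' : Rep G q) : Prop :=
  ∃ (C : ℝ) (L : ℕ), ∀ (l : ℕ) [NeZero l], L ≤ l → ∀ x y : Fin D → ZMod l,
    Near C (potential B μ g ρ x y) (potential B μ g ρ' x y)

/-- Every element of the centre of `G` acts by the same scalar in `ρ` and in `ρ'`. -/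
def SameNality (ρ : Rep G p) (ρ' : Rep G q) : Prop :=
  ∀ z ∈ Subgroup.center G, ∃ c : ℂ, ρ.mat z = c • 1 ∧ ρ'.mat z = c • 1

/-- The centre of `G` acts trivially in `ρ`. -/
def TrivialNality (ρ : Rep G p) : Prop := ∀ z ∈ Subgroup.center G, ρ.mat z = 1

end

open Pool.Agent.X168

variable {N n D l p : ℕ} {G : Subgroup (UU N)} {V : Type} [NormedAddCommGroup V] [NormedSpace ℝ V]

/-- A Haar probability measure is invariant under right multiplications. -/
lemma right_inv {H : Type*} [Group H] [TopologicalSpace H] [IsTopologicalGroup H]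
    [CompactSpace H] [MeasurableSpace H] [BorelSpace H] (μ : Measure H)
    [IsProbabilityMeasure μ] [μ.IsHaarMeasure] : μ.IsMulRightInvariant := by
  refine ⟨fun g => ?_⟩
  have h1 : IsProbabilityMeasure (Measure.map (fun x => x * g) μ) :=
    Measure.isProbabilityMeasure_map (measurable_mul_const g).aemeasurable
  exact Measure.isHaarMeasure_eq_of_isProbabilityMeasure _ _

/-- A Haar probability measure is invariant under the inversion. -/
lemma inv_inv' {H : Type*} [Group H] [TopologicalSpace H] [IsTopologicalGroup H]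
    [CompactSpace H] [MeasurableSpace H] [BorelSpace H] (μ : Measure H)
    [IsProbabilityMeasure μ] [μ.IsHaarMeasure] : μ.IsInvInvariant := by
  have hr := right_inv μ
  refine ⟨?_⟩
  have h1 : IsProbabilityMeasure μ.inv :=
    Measure.isProbabilityMeasure_map measurable_inv.aemeasurable
  have h2 : μ.inv.IsMulLeftInvariant := inferInstance
  have h3 : μ.inv.IsHaarMeasure :=
    Measure.isHaarMeasure_of_isCompact_nonempty_interior μ.inv Set.univ isCompact_univ
      (by simp) (by simp) (by simp)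
  exact Measure.isHaarMeasure_eq_of_isProbabilityMeasure _ _

lemma compact_UU (N : ℕ) : IsCompact (UU N : Set (Mt N)) := by
  have h1 : IsCompact (Set.pi Set.univ fun _ : Fin N => Set.pi Set.univ fun _ : Fin N =>
      Metric.closedBall (0 : ℂ) 1) :=
    isCompact_univ_pi fun _ => isCompact_univ_pi fun _ => isCompact_closedBall _ _
  refine IsCompact.of_isClosed_subset h1 ?_ ?_
  · have h2 : (UU N : Set (Mt N)) = {A | A * star A = 1} := by
      ext A
      exact Matrix.mem_unitaryGroup_iff
    rw [h2]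
    exact isClosed_eq (continuous_id.mul continuous_star) continuous_const
  · intro A hA i _ j _
    rw [mem_closedBall_zero_iff]
    exact entry_norm_bound_of_unitary hA i j

/-- The data in the form used by the helper files. -/
def gd (hG : IsClosed (G : Set (UU N))) (B : LieBasis G n) : NA.GD G N n :=
  NA.gd hG B.X B.ex B.ex_eq B.orth B.full

section bridge

variable (hG : IsClosed (G : Set (UU N))) (B : LieBasis G n)

lemma isC1_iff [NeZero l] (F : (Link D l → G) → V) : IsC1 F ↔ NA.C1 (gd hG B) F := Iff.rfl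

lemma dlink_eq (e : Link D l) (a : Fin n) (F : (Link D l → G) → V) (U : Link D l → G) :
    dlink B e a F U = NA.dl (gd hG B) e a F U := by
  unfold dlink NA.dl
  have h : ∀ t : ℝ, Function.update U e (B.ex a t * U e) =
      Pi.mulSingle e ((gd hG B).ex a t) * U := by
    intro t
    funext e'
    by_cases h : e' = e
    · subst h
      rw [Pi.mul_apply, Pi.mulSingle_eq_same, Function.update_self]
      rfl
    · rw [Pi.mul_apply, Pi.mulSingle_eq_of_ne h, one_mul, Function.update_of_ne h]
  simp only [h]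

lemma magnetic_eq [NeZero l] (U : Link D l → G) : magnetic U = NA.mag (gd hG B) U := rfl

lemma gauge_eq (γ : (Fin D → ZMod l) → G) (U : Link D l → G) :
    gauge γ U = NA.gt NA.sr NA.tg γ U := rfl

lemma frob (M : Mt p) : ‖M‖ ^ 2 = ∑ q : Fin p × Fin p, ‖M q.1 q.2‖ ^ 2 := by
  rw [Fintype.sum_prod_type, Matrix.frobenius_norm_def, ← Real.sqrt_eq_rpow, Real.sq_sqrt]
  · simp only [Real.rpow_two]
  · positivity

/-- the entries of a matrix function -/
def ent (F : (Link D l → G) → Mt p) : Fin p × Fin p → (Link D l → G) → ℂ :=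
  fun q U => F U q.1 q.2

/-- the entry map -/
def entL (q : Fin p × Fin p) : Mt p →L[ℝ] ℂ :=
  LinearMap.toContinuousLinearMap
    { toFun := fun M => M q.1 q.2
      map_add' := fun _ _ => rfl
      map_smul' := fun _ _ => rfl }

lemma ent_C1 [NeZero l] {F : (Link D l → G) → Mt p} (hF : NA.C1 (gd hG B) F)
    (q : Fin p × Fin p) : NA.C1 (gd hG B) (ent F q) :=
  hF.comp (φ := fun M => entL q M) (entL q).contDiff

lemma ent_dl [NeZero l] {F : (Link D l → G) → Mt p} (hF : NA.C1 (gd hG B) F)
    (q : Fin p × Fin p) (e : Link D l) (a : Fin n) (U : Link D l → G) :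
    NA.dl (gd hG B) e a (ent F q) U = NA.dl (gd hG B) e a F U q.1 q.2 := by
  have h := (entL q).hasFDerivAt.comp_hasDerivAt (0 : ℝ) (hF.hasDerivAt e a U)
  exact h.deriv

lemma C1_of_ent [NeZero l] {F : (Link D l → G) → Mt p}
    (h : ∀ q, NA.C1 (gd hG B) (ent F q)) : NA.C1 (gd hG B) F := by
  choose f hf hfF using h
  let T : (Fin p × Fin p → ℂ) →ₗ[ℝ] Mt p :=
    { toFun := fun x => Matrix.of fun i j => x (i, j)
      map_add' := fun _ _ => rfl
      map_smul' := fun _ _ => rfl }
  refine ⟨fun A => LinearMap.toContinuousLinearMap T fun q => f q A, ?_, fun U => ?_⟩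
  · exact (LinearMap.toContinuousLinearMap T).contDiff.comp (contDiff_pi.2 fun q => hf q)
  · ext i j
    show F U i j = f (i, j) (NA.mats (gd hG B) U)
    exact hfF (i, j) U

variable [CompactSpace G] [SecondCountableTopology G] [NeZero l]
  [MeasurableSpace G] [BorelSpace G] (μ : Measure G) [IsProbabilityMeasure μ] [μ.IsHaarMeasure]
  (g : ℝ)

lemma nrm_eq {F : (Link D l → G) → Mt p} (hF : NA.C1 (gd hG B) F) :
    ∫ U, ‖F U‖ ^ 2 ∂(Measure.pi fun _ : Link D l => μ) = NA.nrm μ (ent F) := by
  simp only [frob]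
  unfold NA.nrm
  rw [integral_finsetSum]
  · rfl
  · intro q _
    exact NA.int_cont μ ((ent_C1 hG B hF q).cont.norm.pow 2)

lemma en_eq {F : (Link D l → G) → Mt p} (hF : NA.C1 (gd hG B) F) :
    energy B μ g F = NA.en (gd hG B) μ g (NA.mag (gd hG B)) (ent F) := by
  have hk : ∀ e, ∑ a : Fin n, ∫ U, ‖dlink B e a F U‖ ^ 2 ∂(Measure.pi fun _ : Link D l => μ) =
      NA.kin (gd hG B) μ e (ent F) := by
    intro e
    unfold NA.kin
    refine Finset.sum_congr rfl fun a _ => ?_
    simp only [dlink_eq hG B, frob, ← ent_dl hG B hF]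
    rw [integral_finsetSum]
    intro q _
    exact NA.int_cont μ (((ent_C1 hG B hF q).dl_cont e a).norm.pow 2)
  have hp : ∫ U, magnetic U * ‖F U‖ ^ 2 ∂(Measure.pi fun _ : Link D l => μ) =
      NA.pot μ (NA.mag (gd hG B)) (ent F) := by
    unfold NA.pot
    simp only [frob, magnetic_eq hG B]
    rfl
  unfold energy NA.en
  rw [hp, Finset.sum_congr rfl fun e _ => hk e]

lemma en_eq' (F : (Link D l → G) → ℂ) :
    energy B μ g F = NA.en (gd hG B) μ g (NA.mag (gd hG B)) (fun _ : Unit => F) := by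
  have hk : ∀ e, ∑ a : Fin n, ∫ U, ‖dlink B e a F U‖ ^ 2 ∂(Measure.pi fun _ : Link D l => μ) =
      NA.kin (gd hG B) μ e (fun _ : Unit => F) := by
    intro e
    unfold NA.kin
    refine Finset.sum_congr rfl fun a _ => ?_
    simp only [dlink_eq hG B, Finset.univ_unique, Finset.sum_singleton]
  have hp : ∫ U, magnetic U * ‖F U‖ ^ 2 ∂(Measure.pi fun _ : Link D l => μ) =
      NA.pot μ (NA.mag (gd hG B)) (fun _ : Unit => F) := by
    unfold NA.pot
    simp only [magnetic_eq hG B, Finset.univ_unique, Finset.sum_singleton]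
  unfold energy NA.en
  rw [hp, Finset.sum_congr rfl fun e _ => hk e]

lemma vacuum_eq : vacuumEnergy D l B μ g = NA.E0 (gd hG B) μ D l g := by
  unfold vacuumEnergy NA.E0 NA.ES
  congr 1
  ext E
  constructor
  · rintro ⟨F, ⟨hF, hn⟩, hinv, rfl⟩
    refine ⟨fun _ => F, NA.Sec0 ((isC1_iff hG B F).1 hF) hinv, ?_, (en_eq' hG B μ g F).symm⟩
    unfold NA.nrm
    rw [Finset.univ_unique, Finset.sum_singleton]
    exact hn
  · rintro ⟨ψ, hψ, hn, rfl⟩
    refine ⟨ψ (), ⟨(isC1_iff hG B _).2 (hψ.c1 ()), ?_⟩, fun γ U => ?_, ?_⟩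
    · unfold NA.nrm at hn
      rw [Finset.univ_unique, Finset.sum_singleton] at hn
      exact hn
    · have h := congrFun (hψ.eq γ U) ()
      unfold NA.R0 at h
      rw [Matrix.one_mulVec] at h
      exact h
    · exact en_eq' hG B μ g (ψ ())

lemma cov_iff (ρ : Rep G p) (x y : Fin D → ZMod l) (F : (Link D l → G) → Mt p)
    (γ : (Fin D → ZMod l) → G) (U : Link D l → G) :
    F (gauge γ U) = ρ.mat (γ x) * F U * (ρ.mat (γ y))ᴴ ↔
    (fun κ => ent F κ (NA.gt NA.sr NA.tg γ U)) =
      (NA.RR ρ.hom x ρ.hom y γ).mulVec fun κ => ent F κ U := by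
  have key : ∀ a b, (ρ.mat (γ x) * F U * (ρ.mat (γ y))ᴴ) a b =
      (NA.RR ρ.hom x ρ.hom y γ).mulVec (fun κ => ent F κ U) (a, b) := by
    intro a b
    show _ = ∑ q : Fin p × Fin p, ρ.mat (γ x) a q.1 *
      (starRingEnd ℂ) (ρ.mat (γ y) b q.2) * F U q.1 q.2
    rw [Fintype.sum_prod_type, Matrix.mul_apply]
    simp only [Matrix.mul_apply, Finset.sum_mul]
    rw [Finset.sum_comm]
    refine Finset.sum_congr rfl fun k _ => Finset.sum_congr rfl fun k' _ => ?_
    rw [Matrix.conjTranspose_apply]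
    show _ * _ * (starRingEnd ℂ) _ = _
    ring
  constructor
  · intro h
    funext ⟨a, b⟩
    rw [← key, ← h]
    rfl
  · intro h
    ext a b
    rw [key, ← h]
    rfl

lemma source_eq (ρ : Rep G p) (x y : Fin D → ZMod l) : sourceEnergy B μ g ρ x y =
    NA.ES (gd hG B) μ NA.sr NA.tg g (NA.mag (gd hG B)) (NA.RR ρ.hom x ρ.hom y) := by
  unfold sourceEnergy NA.ES
  congr 1
  ext E
  constructor
  · rintro ⟨F, ⟨hF, hn⟩, hcov, rfl⟩
    have hF' := (isC1_iff hG B F).1 hF
    refine ⟨ent F, ⟨ent_C1 hG B hF', fun γ U => (cov_iff ρ x y F γ U).1 (hcov γ U)⟩, ?_,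
      (en_eq hG B μ g hF').symm⟩
    rw [← nrm_eq hG B μ hF']
    exact hn
  · rintro ⟨ψ, hψ, hn, rfl⟩
    obtain ⟨F, hFe⟩ : ∃ F : (Link D l → G) → Mt p, ent F = ψ :=
      ⟨fun U => Matrix.of fun i j => ψ (i, j) U, rfl⟩
    subst hFe
    have hF' : NA.C1 (gd hG B) F := C1_of_ent hG B hψ.c1
    refine ⟨F, ⟨(isC1_iff hG B F).2 hF', ?_⟩, fun γ U => (cov_iff ρ x y F γ U).2 (hψ.eq γ U),
      en_eq hG B μ g hF'⟩
    rw [nrm_eq hG B μ hF']
    exact hn

lemma potential_eq (ρ : Rep G p) (x y : Fin D → ZMod l) : potential B μ g ρ x y =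
    NA.VV (gd hG B) μ g ρ.hom x y := by
  unfold potential NA.VV
  rw [source_eq hG B μ g, vacuum_eq hG B μ g]

end bridge

/-- **The string tension depends on the N-ality only.** Let `G` be a connected closed subgroup of
`U(N)`, `D ≥ 2` and `g > 0`, and let `ρ`, `ρ'` be continuous unitary representations of `G` of
dimensions `p, p' ≥ 1` with the same N-ality. There are `C` and `L` such that for all `l ≥ L` and all
sites `x`, `y` of the lattice `(ℤ/l)^D`
`|V_ρ(x, y) - V_ρ'(x, y)| ≤ C (1 + min (V_ρ(x, y), V_ρ'(x, y))) ^ (3/4)`, and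
`0 ≤ V_ρ(x, y) ≤ C (1 + ∑ |y_i - x_i|)`. The sources `ρ` have the string tension `σ` if and only if
the sources `ρ'` have it. If the centre of `G` acts trivially in `ρ`, then the potential `V_ρ` is
bounded, uniformly in the volume. -/
theorem result {N n D p p' : ℕ} (G : Subgroup (UU N)) (hG : IsClosed (G : Set (UU N)))
    (hconn : IsConnected (G : Set (UU N)))
    [MeasurableSpace G] [BorelSpace G] (μ : Measure G) [IsProbabilityMeasure μ] [μ.IsHaarMeasure]
    (B : LieBasis G n) (hD : 2 ≤ D) (ρ : Rep G p) (ρ' : Rep G p') (hp : 1 ≤ p) (hp' : 1 ≤ p')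
    (hρ : SameNality ρ ρ') (g : ℝ) (hg : 0 < g) :
    Close D B μ g ρ ρ' ∧ AtMostLinear D B μ g ρ ∧
    (∀ σ : ℝ, HasStringTension D B μ g ρ σ ↔ HasStringTension D B μ g ρ' σ) ∧
    (TrivialNality ρ → Screened D B μ g ρ) := by
  have h0 : CompactSpace (UU N) := isCompact_iff_compactSpace.1 (compact_UU N)
  have : CompactSpace G := by
    have h1 : IsCompact (G : Set (UU N)) := hG.isCompact
    exact isCompact_iff_compactSpace.1 h1
  have hM : SecondCountableTopology (Mt N) :=
    inferInstanceAs (SecondCountableTopology (Fin N → Fin N → ℂ))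
  have h00 : SecondCountableTopology (UU N) := TopologicalSpace.Subtype.secondCountableTopology _
  have : SecondCountableTopology G := TopologicalSpace.Subtype.secondCountableTopology _
  have : μ.IsMulRightInvariant := right_inv μ
  have : μ.IsInvInvariant := inv_inv' μ
  have : PreconnectedSpace G := Subtype.preconnectedSpace hconn.isPreconnected
  have : NeZero p := ⟨by omega⟩
  have : NeZero p' := ⟨by omega⟩
  have hcen : ∀ z ∈ Subgroup.center G, ∃ c : ℂ,
      (ρ.hom z : Mt p) = c • 1 ∧ (ρ'.hom z : Mt p') = c • 1 := hρ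
  have hcen' : ∀ z ∈ Subgroup.center G, ∃ c : ℂ,
      (ρ'.hom z : Mt p') = c • 1 ∧ (ρ.hom z : Mt p) = c • 1 := fun z hz => by
    obtain ⟨c, hc1, hc2⟩ := hcen z hz
    exact ⟨c, hc2, hc1⟩
  refine ⟨?_, ?_, fun σ => ?_, fun htriv => ?_⟩
  · obtain ⟨C, L₀, hC0, hC⟩ := NA.comparison (gd hG B) μ ρ.cont ρ'.cont hcen hD hg
    refine ⟨C, L₀, ?_⟩
    intro l _ hl x y
    unfold Near
    rw [potential_eq hG B μ g, potential_eq hG B μ g]
    exact hC l hl x y
  · obtain ⟨Cp, hCp0, hCp⟩ := NA.path_bound (gd hG B) μ (D := D) ρ.cont hg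
    refine ⟨Cp, ?_⟩
    intro l _ x y
    rw [potential_eq hG B μ g]
    exact ⟨NA.VV_nonneg (gd hG B) μ ρ.cont hg x y, (hCp l x y).2⟩
  · have hiff : ∀ {q : ℕ} (τ : Rep G q), HasStringTension D B μ g τ σ ↔
        NA.Ten (gd hG B) μ D g τ.hom σ := by
      intro q τ
      unfold HasStringTension NA.Ten
      simp only [potential_eq hG B μ g]
    rw [hiff, hiff]
    exact ⟨NA.ten_of (gd hG B) μ ρ.cont ρ'.cont hcen hD hg,
      NA.ten_of (gd hG B) μ ρ'.cont ρ.cont hcen' hD hg⟩
  · obtain ⟨Cs, Ls, h0, h1⟩ := NA.screening (gd hG B) μ ρ.cont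
      (fun z hz => Subtype.ext (htriv z hz)) hD hg
    refine ⟨Cs, Ls, ?_⟩
    intro l _ hl x y
    rw [potential_eq hG B μ g]
    exact h1 l hl x y

end

end Pool.Agent.Results.MP_7f377f_mp.StringTensionNality
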